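import Mathlib
import Pool.Graph.R_seed8.TH127.SC.Core
import Pool.Graph.R_seed8.H925R2.Core

/-!
# Relations between the translates of a function with a dominating value
-/

set_option autoImplicit false
set_option linter.unusedSectionVars false
set_option linter.unusedVariables false

namespace Pool.Agent.H395

open Finset Pool.Agent.TH127.SC

section key

variable {Y : Type*} [Fintype Y] [DecidableEq Y] {cb : Y → Y}

/-- A sum of values that are equal at partners does not vanish if twice one of them dominates. -/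
theorem arch_key (hcb : ∀ y, cb (cb y) = y) (hne : ∀ y, cb y ≠ y) {B : Finset Y}
    (hB : ∀ y ∈ B, cb y ∈ B) {f : Y → ℚ} (hf : ∀ y, f (cb y) = f y) {z : Y} (hz : z ∈ B)
    (hdom : ∑ y ∈ B.filter (fun y => y ≠ z ∧ y ≠ cb z), |f y| < 2 * |f z|) :
    ∑ y ∈ B, f y ≠ 0 := by
  intro hsum
  have h1 : B.filter (fun y => ¬ (y ≠ z ∧ y ≠ cb z)) = {z, cb z} := by
    ext y
    rw [Finset.mem_filter, Finset.mem_insert, Finset.mem_singleton]
    constructor
    · rintro ⟨_, h⟩
      by_contra hcon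
      exact h ⟨fun e => hcon (Or.inl e), fun e => hcon (Or.inr e)⟩
    · rintro (rfl | rfl)
      · exact ⟨hz, fun h => h.1 rfl⟩
      · exact ⟨hB _ hz, fun h => h.2 rfl⟩
  have h2 := Finset.sum_filter_add_sum_filter_not B (fun y => y ≠ z ∧ y ≠ cb z) f
  rw [h1, Finset.sum_pair (hne z).symm, hf, hsum] at h2
  have h3 : |∑ y ∈ B.filter (fun y => y ≠ z ∧ y ≠ cb z), f y| ≤
      ∑ y ∈ B.filter (fun y => y ≠ z ∧ y ≠ cb z), |f y| := Finset.abs_sum_le_sum_abs _ _
  have h4 : ∑ y ∈ B.filter (fun y => y ≠ z ∧ y ≠ cb z), f y = -(2 * f z) := by linarith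
  rw [h4, abs_neg, abs_mul, abs_two] at h3
  linarith

/-- A sum of values that are equal at partners does not vanish if one of them dominates. -/
theorem padic_key (hcb : ∀ y, cb (cb y) = y) (hne : ∀ y, cb y ≠ y) {B : Finset Y}
    (hB : ∀ y ∈ B, cb y ∈ B) {f : Y → ℚ} (hf : ∀ y, f (cb y) = f y) {z : Y} (hz : z ∈ B)
    (l : ℕ) [Fact l.Prime] (hz0 : f z ≠ 0)
    (hdom : ∀ y ∈ B, y ≠ z → y ≠ cb z → padicNorm l (f y) < padicNorm l (f z)) :
    ∑ y ∈ B, f y ≠ 0 := by
  intro hsum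
  obtain ⟨Φ, hΦ⟩ := Pool.Agent.H925R2.exists_isHalf (R := Y) hcb hne
  have hB' : ∀ y, cb y ∈ B ↔ y ∈ B := fun y => ⟨fun h => by
    have := hB _ h
    rwa [hcb] at this, hB y⟩
  have h1 := hΦ.sum_symm hcb (fun y => if y ∈ B then f y else 0) (fun y => by
    by_cases hy : y ∈ B
    · simp only [(hB' y).2 hy, hy, if_true, hf]
    · simp only [hy, if_false, (hB' y).not.2 hy])
  have h2 : ∑ y, (if y ∈ B then f y else 0) = 0 := by
    rw [← Finset.sum_filter, Finset.filter_mem_eq_inter, Finset.univ_inter, hsum]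
  rw [h2] at h1
  have h3 : ∑ y ∈ Φ, (if y ∈ B then f y else 0) = 0 := by linarith
  rw [← Finset.sum_filter] at h3
  obtain ⟨z', hz', hzz, hzΦ⟩ : ∃ z', (z' = z ∨ z' = cb z) ∧ f z' = f z ∧ z' ∈ Φ := by
    by_cases h : z ∈ Φ
    · exact ⟨z, Or.inl rfl, rfl, h⟩
    · refine ⟨cb z, Or.inr rfl, hf z, ?_⟩
      by_contra h'
      exact h ((hΦ z).2 h')
  have hz'B : z' ∈ B := by
    rcases hz' with rfl | rfl
    · exact hz
    · exact hB _ hz
  have h4 : z' ∈ Φ.filter (fun y => y ∈ B) := Finset.mem_filter.2 ⟨hzΦ, hz'B⟩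
  rw [← Finset.add_sum_erase _ _ h4, hzz] at h3
  have hpos : 0 < padicNorm l (f z) := by
    rcases (padicNorm.nonneg (p := l) (f z)).lt_or_eq with h | h
    · exact h
    · exact absurd (padicNorm.zero_of_padicNorm_eq_zero h.symm) hz0
  have h5 := padicNorm.sum_lt' (p := l) (F := f) (t := padicNorm l (f z))
    (s := (Φ.filter (fun y => y ∈ B)).erase z') (fun y hy => by
      rw [Finset.mem_erase, Finset.mem_filter] at hy
      obtain ⟨hy1, hy2, hy3⟩ := hy
      refine hdom y hy3 ?_ ?_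
      · rintro rfl
        rcases hz' with rfl | rfl
        · exact hy1 rfl
        · exact (hΦ y).1 hy2 hzΦ
      · rintro rfl
        rcases hz' with rfl | rfl
        · exact (hΦ z').1 hzΦ hy2
        · exact hy1 rfl) hpos
  have h6 : ∑ y ∈ (Φ.filter (fun y => y ∈ B)).erase z', f y = - f z := by linarith
  rw [h6, padicNorm.neg] at h5
  exact lt_irrefl _ h5

end key

variable {G Y : Type*} [Group G] [MulAction G Y] {cb : Y → Y} [Fintype Y]
  (hcb : ∀ y, cb (cb y) = y) (hne : ∀ y, cb y ≠ y)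
  (hG : ∀ (g : G) (y : Y), g • cb y = cb (g • y))

open Classical in
include hcb hne hG in
theorem zero_at_dom_arch {y₀ : Y} {a d t : Y → ℚ} (ha : ∀ y, a (cb y) = - a y)
    (hd : ∀ y, d (cb y) = - d y) (ht : ∀ y, 0 < t y) (htG : ∀ (g : G) y, t (g • y) = t y)
    (hrel : ∀ g : G, ∑ y ∈ Finset.univ.filter (fun y => Link G cb y₀ y), a y * d (g • y) = 0)
    (hdom : ∀ y, Link G cb y₀ y → ∃ (h : G) (T : Finset Y), (∀ w, w ∈ T ↔
      Link G cb (h • y) w ∧ w ≠ h • y ∧ w ≠ cb (h • y)) ∧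
        ∑ w ∈ T, t w * |d w| < 2 * (t (h • y) * |d (h • y)|)) : a y₀ = 0 := by
  have hmem : y₀ ∈ Finset.univ.filter (fun y => Link G cb y₀ y) :=
    Finset.mem_filter.2 ⟨Finset.mem_univ _, link_refl _⟩
  obtain ⟨y₁, hy₁, hmax⟩ := Finset.exists_max_image (Finset.univ.filter (fun y => Link G cb y₀ y))
    (fun y => |a y| / t y) ⟨y₀, hmem⟩
  have hl₁ : Link G cb y₀ y₁ := (Finset.mem_filter.1 hy₁).2
  obtain ⟨h, T, hT, hh⟩ := hdom y₁ hl₁
  have hT' : T = Finset.univ.filter (fun w => Link G cb (h • y₁) w ∧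
      (w ≠ h • y₁ ∧ w ≠ cb (h • y₁))) := by
    ext w
    rw [hT, Finset.mem_filter]
    exact ⟨fun h => ⟨Finset.mem_univ _, h⟩, fun h => h.2⟩
  rw [hT'] at hh
  by_contra ha0
  set M := |a y₁| / t y₁ with hM
  have hMpos : 0 < M := lt_of_lt_of_le (div_pos (abs_pos.2 ha0) (ht y₀)) (hmax y₀ hmem)
  have hle : ∀ y, Link G cb y₀ y → |a y| ≤ M * t y := by
    intro y hy
    exact (div_le_iff₀ (ht y)).1 (hmax y (Finset.mem_filter.2 ⟨Finset.mem_univ _, hy⟩))
  have heq : |a y₁| = M * t y₁ := by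
    rw [hM, div_mul_cancel₀ _ (ht y₁).ne']
  set z := h • y₁ with hz
  have hlz : ∀ w, Link G cb z w ↔ Link G cb y₀ (h⁻¹ • w) := by
    intro w
    have h1 : Link G cb z w ↔ Link G cb y₁ (h⁻¹ • w) := by
      rw [hz, ← link_smul_iff hG h⁻¹, inv_smul_smul]
    rw [h1]
    exact ⟨fun h => link_trans hl₁ h, fun h => link_trans (link_symm hl₁) h⟩
  refine arch_key hcb hne (B := Finset.univ.filter (fun w => Link G cb z w))
    (f := fun w => a (h⁻¹ • w) * d w) (z := z) ?_ ?_ ?_ ?_ ?_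
  · intro w hw
    rw [Finset.mem_filter] at hw ⊢
    exact ⟨Finset.mem_univ _, link_trans hw.2 (link_cb hcb hne hG w)⟩
  · intro w
    rw [hG, ha, hd]
    ring
  · exact Finset.mem_filter.2 ⟨Finset.mem_univ _, link_refl _⟩
  · rw [Finset.filter_filter]
    calc ∑ w ∈ Finset.univ.filter (fun w => Link G cb z w ∧ (w ≠ z ∧ w ≠ cb z)),
          |a (h⁻¹ • w) * d w| ≤
        ∑ w ∈ Finset.univ.filter (fun w => Link G cb z w ∧ (w ≠ z ∧ w ≠ cb z)),
          M * (t w * |d w|) := by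
          refine Finset.sum_le_sum fun w hw => ?_
          have h1 := hle _ ((hlz w).1 (Finset.mem_filter.1 hw).2.1)
          rw [htG] at h1
          rw [abs_mul]
          calc |a (h⁻¹ • w)| * |d w| ≤ M * t w * |d w| :=
                mul_le_mul_of_nonneg_right h1 (abs_nonneg _)
            _ = _ := by ring
      _ = M * ∑ w ∈ Finset.univ.filter (fun w => Link G cb z w ∧ (w ≠ z ∧ w ≠ cb z)),
          t w * |d w| := by rw [Finset.mul_sum]
      _ < M * (2 * (t z * |d z|)) := mul_lt_mul_of_pos_left hh hMpos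
      _ = 2 * |a (h⁻¹ • z) * d z| := by
          rw [hz, inv_smul_smul, abs_mul, heq, htG]
          ring
  · rw [← hrel h]
    refine Finset.sum_nbij' (fun w => h⁻¹ • w) (fun y => h • y) ?_ ?_ ?_ ?_ ?_
    · intro w hw
      exact Finset.mem_filter.2 ⟨Finset.mem_univ _, (hlz w).1 (Finset.mem_filter.1 hw).2⟩
    · intro y hy
      refine Finset.mem_filter.2 ⟨Finset.mem_univ _, (hlz _).2 ?_⟩
      rw [inv_smul_smul]
      exact (Finset.mem_filter.1 hy).2
    · intro w _
      exact smul_inv_smul h w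
    · intro y _
      exact inv_smul_smul h y
    · intro w _
      rw [smul_inv_smul]

open Classical in
include hcb hne hG in
theorem zero_at_dom_padic (l : ℕ) [Fact l.Prime] {y₀ : Y} {a d t : Y → ℚ}
    (ha : ∀ y, a (cb y) = - a y)
    (hd : ∀ y, d (cb y) = - d y) (ht : ∀ y, 0 < t y) (htG : ∀ (g : G) y, t (g • y) = t y)
    (hrel : ∀ g : G, ∑ y ∈ Finset.univ.filter (fun y => Link G cb y₀ y), a y * d (g • y) = 0)
    (hdom : ∀ y, Link G cb y₀ y → ∃ h : G, d (h • y) ≠ 0 ∧ ∀ w, Link G cb (h • y) w →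
      w ≠ h • y → w ≠ cb (h • y) → t w * padicNorm l (d w) < t (h • y) * padicNorm l (d (h • y))) :
    a y₀ = 0 := by
  have hmem : y₀ ∈ Finset.univ.filter (fun y => Link G cb y₀ y) :=
    Finset.mem_filter.2 ⟨Finset.mem_univ _, link_refl _⟩
  obtain ⟨y₁, hy₁, hmax⟩ := Finset.exists_max_image (Finset.univ.filter (fun y => Link G cb y₀ y))
    (fun y => padicNorm l (a y) / t y) ⟨y₀, hmem⟩
  have hl₁ : Link G cb y₀ y₁ := (Finset.mem_filter.1 hy₁).2
  obtain ⟨h, hh0, hh⟩ := hdom y₁ hl₁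
  by_contra ha0
  set M := padicNorm l (a y₁) / t y₁ with hM
  have hpos : ∀ x : ℚ, x ≠ 0 → 0 < padicNorm l x := by
    intro x hx
    rcases (padicNorm.nonneg (p := l) x).lt_or_eq with h | h
    · exact h
    · exact absurd (padicNorm.zero_of_padicNorm_eq_zero h.symm) hx
  have hMpos : 0 < M := lt_of_lt_of_le (div_pos (hpos _ ha0) (ht y₀)) (hmax y₀ hmem)
  have hle : ∀ y, Link G cb y₀ y → padicNorm l (a y) ≤ M * t y := by
    intro y hy
    exact (div_le_iff₀ (ht y)).1 (hmax y (Finset.mem_filter.2 ⟨Finset.mem_univ _, hy⟩))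
  have heq : padicNorm l (a y₁) = M * t y₁ := by
    rw [hM, div_mul_cancel₀ _ (ht y₁).ne']
  have ha1 : a y₁ ≠ 0 := by
    intro h0
    rw [h0, padicNorm.zero] at heq
    exact (mul_pos hMpos (ht y₁)).ne heq
  set z := h • y₁ with hz
  have hlz : ∀ w, Link G cb z w ↔ Link G cb y₀ (h⁻¹ • w) := by
    intro w
    have h1 : Link G cb z w ↔ Link G cb y₁ (h⁻¹ • w) := by
      rw [hz, ← link_smul_iff hG h⁻¹, inv_smul_smul]
    rw [h1]
    exact ⟨fun h => link_trans hl₁ h, fun h => link_trans (link_symm hl₁) h⟩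
  refine padic_key hcb hne (B := Finset.univ.filter (fun w => Link G cb z w))
    (f := fun w => a (h⁻¹ • w) * d w) (z := z) ?_ ?_ ?_ l ?_ ?_ ?_
  · intro w hw
    rw [Finset.mem_filter] at hw ⊢
    exact ⟨Finset.mem_univ _, link_trans hw.2 (link_cb hcb hne hG w)⟩
  · intro w
    rw [hG, ha, hd]
    ring
  · exact Finset.mem_filter.2 ⟨Finset.mem_univ _, link_refl _⟩
  · rw [hz, inv_smul_smul]
    exact mul_ne_zero ha1 hh0
  · intro w hw hw1 hw2
    have hlw := (Finset.mem_filter.1 hw).2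
    have h1 := hle _ ((hlz w).1 hlw)
    rw [htG] at h1
    rw [padicNorm.mul, padicNorm.mul]
    calc padicNorm l (a (h⁻¹ • w)) * padicNorm l (d w) ≤ M * t w * padicNorm l (d w) :=
          mul_le_mul_of_nonneg_right h1 (padicNorm.nonneg _)
      _ = M * (t w * padicNorm l (d w)) := by ring
      _ < M * (t z * padicNorm l (d z)) := mul_lt_mul_of_pos_left (hh w hlw hw1 hw2) hMpos
      _ = padicNorm l (a (h⁻¹ • z)) * padicNorm l (d z) := by
          rw [hz, inv_smul_smul, heq, htG]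
          ring
  · rw [← hrel h]
    refine Finset.sum_nbij' (fun w => h⁻¹ • w) (fun y => h • y) ?_ ?_ ?_ ?_ ?_
    · intro w hw
      exact Finset.mem_filter.2 ⟨Finset.mem_univ _, (hlz w).1 (Finset.mem_filter.1 hw).2⟩
    · intro y hy
      refine Finset.mem_filter.2 ⟨Finset.mem_univ _, (hlz _).2 ?_⟩
      rw [inv_smul_smul]
      exact (Finset.mem_filter.1 hy).2
    · intro w _
      exact smul_inv_smul h w
    · intro y _
      exact inv_smul_smul h y
    · intro w _
      rw [smul_inv_smul]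

end Pool.Agent.H395
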