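import Mathlib

/-!
# Group actions with an involution: tools of helper298

The definitions and lemmas in this file are copied from the files
`Pool/Agent/H298/Core/{Sylow,Cyclic,Basic,Odd,Prime,TwoTrans}.lean` of helper298, so that the files in
`Pool/Agent/H395` do not depend on later changes of them.
-/

set_option autoImplicit false
set_option linter.unusedSectionVars false
set_option linter.unusedVariables false

namespace Pool.Agent.H395.C298

section sylow

open MulAction

theorem sylow_orbit_dvd {H : Type*} [Group H] [Finite H] {Y : Type*} [MulAction H Y] (p : ℕ)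
    [Fact p.Prime] (S : Sylow p H) (x : Y) (k : ℕ) (h : p ^ k ∣ Nat.card (orbit H x)) :
    p ^ k ∣ Nat.card (orbit S x) := by
  have h1 : Nat.card (orbit H x) = (stabilizer H x).index := by
    rw [Subgroup.index, Nat.card_congr (orbitEquivQuotientStabilizer H x)]
  have h2 : Nat.card (orbit S x) = (stabilizer H x).relIndex (S : Subgroup H) := by
    rw [Nat.card_congr (orbitEquivQuotientStabilizer S x), Subgroup.relIndex, Subgroup.index]
    have h3 : stabilizer S x = (stabilizer H x).subgroupOf (S : Subgroup H) := by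
      ext s
      rw [Subgroup.mem_subgroupOf, mem_stabilizer_iff, mem_stabilizer_iff]
      exact Iff.rfl
    rw [h3]
  rw [h1] at h
  rw [h2]
  have h4 : ((stabilizer H x) ⊓ (S : Subgroup H)).index =
      (stabilizer H x).relIndex (S : Subgroup H) * (S : Subgroup H).index := by
    rw [← Subgroup.inf_relIndex_right, Subgroup.relIndex_mul_index inf_le_right]
  have h5 : (stabilizer H x).index ∣ ((stabilizer H x) ⊓ (S : Subgroup H)).index :=
    Subgroup.index_dvd_of_le inf_le_left
  have h6 := h.trans h5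
  rw [h4] at h6
  refine Nat.Coprime.dvd_of_dvd_mul_right ?_ h6
  refine Nat.Coprime.pow_left k ?_
  exact (Nat.Prime.coprime_iff_not_dvd Fact.out).2 S.not_dvd_index

theorem sylow_transitive {H : Type*} [Group H] [Finite H] {Y : Type*} [MulAction H Y] (p : ℕ)
    [Fact p.Prime] (S : Sylow p H) (x : Y) (k : ℕ) (h : Nat.card (orbit H x) = p ^ k) {y : Y}
    (hy : y ∈ orbit H x) : y ∈ orbit S x := by
  have hsub : orbit S x ⊆ orbit H x := by
    rintro _ ⟨s, rfl⟩
    exact ⟨s, rfl⟩
  have hfin : (orbit H x).Finite := Set.finite_range _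
  have h1 := sylow_orbit_dvd p S x k (by rw [h])
  have h2 : (orbit H x).ncard ≤ (orbit S x).ncard := by
    rw [← Nat.card_coe_set_eq, ← Nat.card_coe_set_eq, h]
    refine Nat.le_of_dvd ?_ h1
    have : Finite (orbit S x) := (hfin.subset hsub).to_subtype
    have : Nonempty (orbit S x) := ⟨⟨x, mem_orbit_self x⟩⟩
    exact Nat.card_pos
  rw [Set.eq_of_subset_of_ncard_le hsub h2 hfin]
  exact hy

/-- An element of odd order whose square fixes a point fixes the point. -/
theorem fix_of_sq {H : Type*} [Group H] {Y : Type*} [MulAction H Y] {p : ℕ} (hp2 : p ≠ 2)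
    [Fact p.Prime] (hS : IsPGroup p H) (g : H) {y : Y} (h : g • g • y = y) : g • y = y := by
  obtain ⟨k, hk⟩ := hS g
  have hodd : Odd (p ^ k) := ((Fact.out : p.Prime).odd_of_ne_two hp2).pow
  obtain ⟨m, hm⟩ := hodd
  have h1 : ∀ n : ℕ, (g * g) ^ n • y = y := by
    intro n
    induction n with
    | zero => rw [pow_zero, one_smul]
    | succ n ih => rw [pow_succ, mul_smul, mul_smul, h, ih]
  have h2 : g * ((g * g) ^ m) = 1 := by
    rw [← hk, hm, ← pow_two, ← pow_mul, pow_succ']
  have h3 : (g * (g * g) ^ m) • y = y := by rw [h2, one_smul]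
  rw [mul_smul, h1] at h3
  exact h3

end sylow

section cyclic

open Polynomial Finset

variable {p : ℕ} [Fact p.Prime]

theorem const_of_sum_char (f : ZMod p → ℤ)
    (h : ∑ j, (f j : ℂ) * ZMod.stdAddChar (N := p) j = 0) (i j : ZMod p) : f i = f j := by
  have hp : p.Prime := Fact.out
  have _ : NeZero p := ⟨hp.ne_zero⟩
  set ζ : ℂ := ZMod.stdAddChar (N := p) 1 with hζ
  have hchar : ∀ j : ZMod p, ZMod.stdAddChar (N := p) j = ζ ^ j.val := by
    intro j
    rw [hζ, ← AddChar.map_nsmul_eq_pow]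
    congr 1
    rw [nsmul_one, ZMod.natCast_zmod_val]
  have hprim : IsPrimitiveRoot ζ p := by
    rw [IsPrimitiveRoot.iff_def]
    constructor
    · rw [hζ, ← AddChar.map_nsmul_eq_pow]
      simp
    · intro l hl
      rw [hζ, ← AddChar.map_nsmul_eq_pow, nsmul_one] at hl
      have h1 : ((l : ℕ) : ZMod p) = 0 := by
        apply ZMod.injective_stdAddChar (N := p)
        rw [hl, AddChar.map_zero_eq_one]
      exact (ZMod.natCast_eq_zero_iff l p).1 h1
  let A : ℤ[X] := ∑ j : ZMod p, C (f j) * X ^ j.val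
  have hA : aeval ζ A = 0 := by
    simp only [A, map_sum, map_mul, aeval_C, map_pow, aeval_X]
    rw [← h]
    refine Finset.sum_congr rfl fun j _ => ?_
    rw [hchar]
    simp
  have hdvd : cyclotomic p ℤ ∣ A := by
    rw [cyclotomic_eq_minpoly hprim hp.pos]
    exact minpoly.isIntegrallyClosed_dvd (hprim.isIntegral hp.pos) hA
  obtain ⟨Q, hQ⟩ := hdvd
  have hcoeff : ∀ j : ZMod p, A.coeff j.val = f j := by
    intro j
    simp only [A, finset_sum_coeff, coeff_C_mul, coeff_X_pow]
    rw [Finset.sum_eq_single j]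
    · simp
    · intro b _ hb
      have : j.val ≠ b.val := fun h => hb (ZMod.val_injective p h).symm
      simp [this]
    · simp
  have hdeg : A.natDegree ≤ p - 1 := by
    refine natDegree_sum_le_of_forall_le _ _ fun j _ => ?_
    refine (natDegree_C_mul_X_pow_le _ _).trans ?_
    have := ZMod.val_lt j
    omega
  have hmonic : (cyclotomic p ℤ).Monic := cyclotomic.monic p ℤ
  have hdegc : (cyclotomic p ℤ).natDegree = p - 1 := by
    rw [natDegree_cyclotomic, Nat.totient_prime hp]
  have hQdeg : Q.natDegree = 0 := by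
    by_cases hQ0 : Q = 0
    · rw [hQ0, natDegree_zero]
    · have h1 : A.natDegree = (p - 1) + Q.natDegree := by
        rw [hQ, hmonic.natDegree_mul' hQ0, hdegc]
      omega
  have hall : ∀ j : ZMod p, f j = Q.coeff 0 := by
    intro j
    rw [← hcoeff j, hQ, eq_C_of_natDegree_eq_zero hQdeg, coeff_mul_C, cyclotomic_prime,
      finset_sum_coeff]
    have h2 : ∑ b ∈ Finset.range p, ((X : ℤ[X]) ^ b).coeff j.val = 1 := by
      simp only [coeff_X_pow]
      rw [Finset.sum_ite_eq]
      simp [ZMod.val_lt j]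
    rw [h2, one_mul]
    simp
  rw [hall i, hall j]

/-- Two integral functions on `ZMod p` all of whose correlations are zero: one of them is
constant. -/
theorem const_of_correlation (a b : ZMod p → ℤ) (h : ∀ i, ∑ j, a j * b (j + i) = 0) :
    (∀ i j, a i = a j) ∨ ∀ i j, b i = b j := by
  have hp : p.Prime := Fact.out
  have _ : NeZero p := ⟨hp.ne_zero⟩
  set e := ZMod.stdAddChar (N := p) with he
  have h1 : (∑ j, (a j : ℂ) * e (-j)) * ∑ k, (b k : ℂ) * e k = 0 := by
    rw [Finset.sum_mul]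
    have h2 : ∀ j : ZMod p, (a j : ℂ) * e (-j) * ∑ k, (b k : ℂ) * e k =
        ∑ i, (a j : ℂ) * b (j + i) * e i := by
      intro j
      rw [Finset.mul_sum]
      refine Fintype.sum_equiv (Equiv.subRight j) _ _ fun k => ?_
      rw [Equiv.subRight_apply, add_sub_cancel, sub_eq_add_neg, AddChar.map_add_eq_mul]
      ring
    rw [Finset.sum_congr rfl fun j _ => h2 j, Finset.sum_comm]
    refine Finset.sum_eq_zero fun i _ => ?_
    rw [← Finset.sum_mul]
    have h3 := h i
    have h4 : ∑ j, (a j : ℂ) * b (j + i) = 0 := by exact_mod_cast h3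
    rw [h4, zero_mul]
  rcases mul_eq_zero.1 h1 with h2 | h2
  · left
    have h3 : ∑ j, ((fun j => a (-j)) j : ℂ) * e j = 0 := by
      rw [← h2]
      refine Fintype.sum_equiv (Equiv.neg _) _ _ fun j => ?_
      simp
    intro i j
    have h4 := const_of_sum_char (fun j => a (-j)) h3 (-i) (-j)
    simpa using h4
  · right
    exact fun i j => const_of_sum_char b h2 i j

end cyclic

section cycle

open MulAction Finset

/-- A `p`-group acts on an orbit of `p` elements through a cycle. -/
theorem exists_cycle {S : Type*} [Group S] {Y : Type*} [MulAction S Y] {p : ℕ} [Fact p.Prime]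
    (hS : IsPGroup p S) (x : Y) (hcard : Nat.card (orbit S x) = p) :
    ∃ (s : S) (f : ZMod p → Y), (∀ i, s • f i = f (i + 1)) ∧ Function.Injective f ∧
      Set.range f = orbit S x := by
  have hp : p.Prime := Fact.out
  have _ : NeZero p := ⟨hp.ne_zero⟩
  have hfin : Finite (orbit S x) := by
    apply Nat.finite_of_card_ne_zero
    rw [hcard]
    exact hp.ne_zero
  obtain ⟨s, hs⟩ : ∃ s : S, s • x ≠ x := by
    by_contra h
    push Not at h
    have h1 : orbit S x = {x} := by
      ext y
      constructor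
      · rintro ⟨s, rfl⟩
        exact h s
      · rintro rfl
        exact mem_orbit_self _
    rw [h1] at hcard
    have h2 : Nat.card ({x} : Set Y) = 1 := by simp
    rw [h2] at hcard
    exact hp.one_lt.ne hcard
  have hzsub : orbit (Subgroup.zpowers s) x ⊆ orbit S x := by
    rintro _ ⟨t, rfl⟩
    exact ⟨(t : S), rfl⟩
  have hfin2 : Finite (orbit (Subgroup.zpowers s) x) :=
    (Set.Finite.subset (Set.toFinite _) hzsub).to_subtype
  have hperc : period s x = Nat.card (orbit (Subgroup.zpowers s) x) := by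
    rw [period_eq_minimalPeriod, Nat.card_congr (orbitZPowersEquiv s x), Nat.card_zmod]
  have hle : period s x ≤ p := by
    rw [hperc]
    calc Nat.card (orbit (Subgroup.zpowers s) x) ≤ Nat.card (orbit S x) := by
          rw [Nat.card_coe_set_eq, Nat.card_coe_set_eq]
          exact Set.ncard_le_ncard hzsub (Set.toFinite _)
      _ = p := hcard
  have hper : period s x = p := by
    obtain ⟨m, hm⟩ := hS s
    have h1 : period s x ∣ p ^ m := by
      rw [← pow_smul_eq_iff_period_dvd, hm, one_smul]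
    obtain ⟨a, -, ha⟩ := (Nat.dvd_prime_pow hp).1 h1
    have ha0 : a ≠ 0 := by
      rintro rfl
      rw [pow_zero] at ha
      apply hs
      have h2 := pow_period_smul s x
      rwa [ha, pow_one] at h2
    refine le_antisymm hle ?_
    rw [ha]
    exact Nat.le_self_pow ha0 p
  have heq : orbit (Subgroup.zpowers s) x = orbit S x := by
    refine Set.eq_of_subset_of_ncard_le hzsub ?_ (Set.toFinite _)
    rw [← Nat.card_coe_set_eq, ← Nat.card_coe_set_eq, hcard, ← hperc, hper]
  let f : ZMod p → Y := fun i => s ^ i.val • x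
  have hrange : Set.range f = orbit S x := by
    rw [← heq]
    ext y
    constructor
    · rintro ⟨i, rfl⟩
      exact ⟨⟨s ^ i.val, Subgroup.npow_mem_zpowers s _⟩, rfl⟩
    · rintro ⟨⟨t, ht⟩, rfl⟩
      obtain ⟨k, rfl⟩ := Subgroup.mem_zpowers_iff.1 ht
      refine ⟨(k : ZMod p), ?_⟩
      change s ^ (k : ZMod p).val • x = s ^ k • x
      rw [← zpow_mod_period_smul k, hper, ← zpow_natCast, ZMod.val_intCast]
  have hinj : Function.Injective f := by
    have hmap : ∀ i, f i ∈ orbit S x := fun i => by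
      rw [← hrange]
      exact ⟨i, rfl⟩
    let f' : ZMod p → orbit S x := fun i => ⟨f i, hmap i⟩
    have hsurj : Function.Surjective f' := by
      rintro ⟨y, hy⟩
      rw [← hrange] at hy
      obtain ⟨i, rfl⟩ := hy
      exact ⟨i, rfl⟩
    have _ : Fintype (orbit S x) := Fintype.ofFinite _
    have hbij : Function.Bijective f' := by
      rw [Fintype.bijective_iff_surjective_and_card]
      refine ⟨hsurj, ?_⟩
      rw [ZMod.card, ← Nat.card_eq_fintype_card, hcard]
    intro i j hij
    exact hbij.1 (Subtype.ext hij)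
  refine ⟨s, f, fun i => ?_, hinj, hrange⟩
  change s • s ^ i.val • x = s ^ (i + 1).val • x
  have h1 := pow_mod_period_smul (i.val + 1) (m := s) (a := x)
  rw [hper] at h1
  rw [← mul_smul, ← pow_succ', ZMod.val_add, ZMod.val_one_eq_one_mod, Nat.add_mod_mod, h1]

end cycle

open MulAction Finset

variable {G : Type*} [Group G] {Y : Type*} [MulAction G Y] {inv : Y → Y} [Fintype Y]
  {D : Y → ℤ} {B : Set Y}

/-- The antisymmetric relations between the translates of `D`, supported in `B`. -/
def Rel (G : Type*) [Group G] {Y : Type*} [MulAction G Y] [Fintype Y] (inv : Y → Y) (D : Y → ℤ)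
    (B : Set Y) : AddSubgroup (Y → ℤ) where
  carrier := {c | (∀ y, c (inv y) = -c y) ∧ (∀ g : G, ∑ y, c y * D (g • y) = 0) ∧
    ∀ y, y ∉ B → c y = 0}
  zero_mem' := ⟨fun y => by simp, fun g => by simp, fun y _ => rfl⟩
  add_mem' := by
    rintro a b ⟨ha1, ha2, ha3⟩ ⟨hb1, hb2, hb3⟩
    refine ⟨fun y => ?_, fun g => ?_, fun y hy => ?_⟩
    · simp only [Pi.add_apply, ha1, hb1]
      ring
    · simp only [Pi.add_apply, add_mul, sum_add_distrib, ha2, hb2, add_zero]
    · simp only [Pi.add_apply, ha3 y hy, hb3 y hy, add_zero]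
  neg_mem' := by
    rintro a ⟨ha1, ha2, ha3⟩
    refine ⟨fun y => ?_, fun g => ?_, fun y hy => ?_⟩
    · simp only [Pi.neg_apply, ha1]
    · simp only [Pi.neg_apply, neg_mul, sum_neg_distrib, ha2, neg_zero]
    · simp only [Pi.neg_apply, ha3 y hy, neg_zero]

theorem mem_Rel {B : Set Y} {c : Y → ℤ} : c ∈ Rel G inv D B ↔ (∀ y, c (inv y) = -c y) ∧
    (∀ g : G, ∑ y, c y * D (g • y) = 0) ∧ ∀ y, y ∉ B → c y = 0 := Iff.rfl

theorem sum_comp_smul (f : Y → ℤ) (g : G) : ∑ y, f (g • y) = ∑ y, f y :=
  Fintype.sum_equiv (MulAction.toPerm g) _ _ fun _ => rfl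

/-- Translates of relations. -/
theorem comp_mem {B B' : Set Y} (hG : ∀ (g : G) (y : Y), g • inv y = inv (g • y)) {c : Y → ℤ}
    (hc : c ∈ Rel G inv D B) (g : G) (hB : ∀ y, y ∉ B' → g • y ∉ B) :
    (fun y => c (g • y)) ∈ Rel G inv D B' := by
  obtain ⟨h1, h2, h3⟩ := hc
  refine ⟨fun y => ?_, fun h => ?_, fun y hy => h3 _ (hB y hy)⟩
  · change c (g • inv y) = -c (g • y)
    rw [hG, h1]
  · rw [← h2 (h * g⁻¹), ← sum_comp_smul (fun y => c y * D ((h * g⁻¹) • y)) g]
    refine sum_congr rfl fun y _ => ?_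
    rw [mul_smul, inv_smul_smul]

/-- The image of a subgroup in the symmetric group. -/
abbrev bar (H : Subgroup G) (Y : Type*) [MulAction G Y] : Subgroup (Equiv.Perm Y) :=
  H.map (MulAction.toPermHom G Y)

instance (H : Subgroup G) : Finite (bar H Y) := Subtype.finite

theorem bar_smul (H : Subgroup G) (s : bar H Y) : ∃ h ∈ H, ∀ y : Y, s • y = h • y := by
  obtain ⟨h, hh, hs⟩ := Subgroup.mem_map.1 s.2
  refine ⟨h, hh, fun y => ?_⟩
  change (s : Equiv.Perm Y) y = h • y
  rw [← hs]
  rfl

theorem smul_bar (H : Subgroup G) {h : G} (hh : h ∈ H) : ∃ s : bar H Y, ∀ y : Y, s • y = h • y :=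
  ⟨⟨_, Subgroup.mem_map.2 ⟨h, hh, rfl⟩⟩, fun _ => rfl⟩

theorem mem_orbit_bar (H : Subgroup G) (x y : Y) : y ∈ orbit (bar H Y) x ↔ ∃ h ∈ H, h • x = y := by
  constructor
  · rintro ⟨s, rfl⟩
    obtain ⟨h, hh, hs⟩ := bar_smul H s
    exact ⟨h, hh, (hs x).symm⟩
  · rintro ⟨h, hh, rfl⟩
    obtain ⟨s, hs⟩ := smul_bar (Y := Y) H hh
    exact ⟨s, hs x⟩

/-- A sum over `B` of a function with equal values at partners is twice the sum over a half. -/
theorem sum_eq_two_mul (hinv : ∀ y, inv (inv y) = y) (O : Finset Y)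
    (hO : ∀ y ∈ O, inv y ∉ O) (hOB : ∀ y, y ∈ B ↔ y ∈ O ∨ inv y ∈ O) (f : Y → ℤ)
    (hf : ∀ y, f (inv y) = f y) (hf0 : ∀ y, y ∉ B → f y = 0) : ∑ y, f y = 2 * ∑ y ∈ O, f y := by
  classical
  have h1 : ∑ y, f y = ∑ y ∈ O ∪ O.image inv, f y := by
    symm
    refine Finset.sum_subset (Finset.subset_univ _) fun y _ hy => hf0 y ?_
    rw [hOB]
    rw [Finset.mem_union, Finset.mem_image] at hy
    rintro (h | h)
    · exact hy (Or.inl h)
    · exact hy (Or.inr ⟨_, h, hinv y⟩)
  have hdisj : Disjoint O (O.image inv) := by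
    rw [Finset.disjoint_left]
    intro y hy hy'
    obtain ⟨z, hz, rfl⟩ := Finset.mem_image.1 hy'
    exact hO z hz hy
  rw [h1, Finset.sum_union hdisj, Finset.sum_image]
  · simp only [hf]
    ring
  · intro a _ b _ h
    rw [← hinv a, h, hinv]

/-- An orbit of `p ^ k` elements of a `p`-group (`p` odd) contains no partners. -/
theorem orbit_half (hinv : ∀ y, inv (inv y) = y) (hne : ∀ y, inv y ≠ y)
    (hG : ∀ (g : G) (y : Y), g • inv y = inv (g • y)) (p : ℕ)
    [Fact p.Prime] (hp2 : p ≠ 2) (H : Subgroup G) (S : Sylow p (bar H Y)) (x : Y) {y : Y}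
    (hy : y ∈ orbit S x) : inv y ∉ orbit S x := by
  intro hy'
  have h1 : inv y ∈ orbit S y := by
    rw [← orbit_eq_iff.2 hy] at hy'
    exact hy'
  obtain ⟨s, hs⟩ := h1
  have hs' : s • y = inv y := hs
  have hsinv : ∀ z, s • inv z = inv (s • z) := by
    intro z
    obtain ⟨h, -, hh⟩ := bar_smul H (s : bar H Y)
    have h1 : ∀ z : Y, s • z = h • z := hh
    rw [h1, h1, hG]
  have h2 : s • s • y = y := by
    rw [hs', hsinv, hs', hinv]
  have h3 := fix_of_sq hp2 S.isPGroup' s h2
  exact hne y (hs'.symm.trans h3)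

theorem sum_block {M : Type*} [AddCommMonoid M] (O : Finset Y)
    (hblock : ∀ (g : G), ∀ y ∈ O, g • y ∈ O → ∀ z ∈ O, g • z ∈ O) {h : G} {y₀ : Y} (hy₀ : y₀ ∈ O)
    (hh : h • y₀ ∈ O) (f : Y → M) : ∑ y ∈ O, f (h • y) = ∑ y ∈ O, f y := by
  have h1 : ∀ z ∈ O, h • z ∈ O := hblock h y₀ hy₀ hh
  have h2 : ∀ z ∈ O, h⁻¹ • z ∈ O := hblock h⁻¹ (h • y₀) hh (by rwa [inv_smul_smul])
  refine Finset.sum_bij' (fun y _ => h • y) (fun y _ => h⁻¹ • y) h1 h2 ?_ ?_ ?_
  · intro y _
    exact inv_smul_smul h y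
  · intro y _
    exact smul_inv_smul h y
  · intro y _
    rfl

end Pool.Agent.H395.C298
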