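import Mathlib
import Pool.Agent.H395.C298

/-!
# Relations in a block of `2 p` elements, `p` a prime number

The proofs of `Pool/Agent/H298/Core/Prime.lean` and `Pool/Agent/H298/Core/Zero.lean` (helper298) for
an arbitrary block instead of a core.
-/

set_option autoImplicit false
set_option linter.unusedSectionVars false
set_option linter.unusedVariables false

namespace Pool.Agent.H395

open MulAction Finset C298

variable {G : Type*} [Group G] {Y : Type*} [MulAction G Y] {inv : Y → Y} [Fintype Y]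
  {D : Y → ℤ} {B : Set Y}

theorem half_cover_of (hinv : ∀ y, inv (inv y) = y) (O : Finset Y)
    (hBinv : ∀ y ∈ B, inv y ∈ B)
    (hsub : ∀ y ∈ O, y ∈ B) (hO : ∀ y ∈ O, inv y ∉ O)
    (hcard : B.ncard = 2 * O.card) (y : Y) : y ∈ B ↔ y ∈ O ∨ inv y ∈ O := by
  classical
  have hdisj : Disjoint O (O.image inv) := by
    rw [Finset.disjoint_left]
    intro y hy hy'
    obtain ⟨z, hz, rfl⟩ := Finset.mem_image.1 hy'
    exact hO z hz hy
  have hinj : Function.Injective inv := fun a b h => by rw [← hinv a, h, hinv]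
  have h1 : ((O ∪ O.image inv : Finset Y) : Set Y) ⊆ B := by
    intro z hz
    rw [Finset.mem_coe, Finset.mem_union, Finset.mem_image] at hz
    rcases hz with h | ⟨w, hw, rfl⟩
    · exact hsub z h
    · exact hBinv _ (hsub w hw)
  have h2 : ((O ∪ O.image inv : Finset Y) : Set Y) = B := by
    refine Set.eq_of_subset_of_ncard_le h1 ?_ (Set.toFinite _)
    rw [hcard, Set.ncard_coe_finset, Finset.card_union_of_disjoint hdisj,
      Finset.card_image_of_injective _ hinj]
    omega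
  rw [← h2, Finset.mem_coe, Finset.mem_union, Finset.mem_image]
  refine or_congr_right ⟨?_, fun h => ⟨_, h, hinv y⟩⟩
  rintro ⟨w, hw, rfl⟩
  rwa [hinv]

/-- The stabilizer of the block. -/
def blockStab (hstab : ∀ (g : G), ∀ y ∈ B, g • y ∈ B → ∀ z, g • z ∈ B ↔ z ∈ B) {x : Y}
    (hx : x ∈ B) : Subgroup G where
  carrier := {g | g • x ∈ B}
  one_mem' := by
    change (1 : G) • x ∈ B
    rw [one_smul]
    exact hx
  mul_mem' := by
    intro g h hg hh
    change (g * h) • x ∈ B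
    rw [mul_smul]
    exact (hstab g x hx hg _).2 hh
  inv_mem' := by
    intro g hg
    change g⁻¹ • x ∈ B
    rw [← hstab g x hx hg, smul_inv_smul]
    exact hx

/-- **Blocks of `2 p` elements**, `p` an odd prime number. -/
theorem prime_block_odd (hinv : ∀ y, inv (inv y) = y)
    (hne : ∀ y, inv y ≠ y) (hG : ∀ (g : G) (y : Y), g • inv y = inv (g • y))
    (hD : ∀ y, D (inv y) = -D y) (p : ℕ) [Fact p.Prime] (hp2 : p ≠ 2) {x : Y} (hx : x ∈ B)
    (hBinv : ∀ y ∈ B, inv y ∈ B)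
    (hstab : ∀ (g : G), ∀ y ∈ B, g • y ∈ B → ∀ z, g • z ∈ B ↔ z ∈ B)
    (htr : ∀ y ∈ B, ∃ g : G, g • x = y)
    (hcard : B.ncard = 2 * p) {c₁ : Y → ℤ} (hc₁ : c₁ ∈ Rel G inv D B) (hc₁x : c₁ x ≠ 0) :
    (∃ y₁ ∈ B, ∃ y₂ ∈ B, y₁ ≠ y₂ ∧ ∀ g : G, D (g • y₁) = D (g • y₂)) ∨
    ∃ O : Finset Y, x ∈ O ∧ O.card = p ∧ (∀ y ∈ O, y ∈ B) ∧ (∀ y ∈ O, inv y ∉ O) ∧
      (∀ (g : G), ∀ y ∈ O, g • y ∈ O → ∀ z ∈ O, g • z ∈ O) ∧
      (∀ g : G, ∑ y ∈ O, D (g • y) = 0) := by
  classical
  have hp : p.Prime := Fact.out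
  have _ : NeZero p := ⟨hp.ne_zero⟩
  set H := blockStab hstab hx with hH
  have hmemH : ∀ g, g ∈ H ↔ g • x ∈ B := fun g => Iff.rfl
  have hHB : ∀ h ∈ H, ∀ y, h • y ∈ B ↔ y ∈ B := fun h hh y => hstab h x hx hh y
  obtain ⟨S⟩ := (inferInstance : Nonempty (Sylow p (bar H Y)))
  have hSlift : ∀ s : S, ∃ h ∈ H, ∀ y : Y, s • y = h • y := fun s => bar_smul H (s : bar H Y)
  have horbH : orbit (bar H Y) x = B := by
    ext y
    rw [mem_orbit_bar]
    constructor
    · rintro ⟨h, hh, rfl⟩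
      exact hh
    · intro hy
      obtain ⟨g, rfl⟩ := htr y hy
      exact ⟨g, hy, rfl⟩
  have hcardS : Nat.card (orbit S x) = p := by
    have h1 : p ^ 1 ∣ Nat.card (orbit S x) := by
      apply sylow_orbit_dvd p S x 1
      rw [horbH, Nat.card_coe_set_eq, hcard, pow_one]
      exact Dvd.intro_left 2 rfl
    obtain ⟨m, hm⟩ := S.isPGroup'.card_orbit x
    have hsub : orbit S x ⊆ B := by
      rw [← horbH]
      rintro _ ⟨s, rfl⟩
      exact ⟨s, rfl⟩
    have h2 : Nat.card (orbit S x) ≤ 2 * p := by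
      rw [← hcard, Nat.card_coe_set_eq]
      exact Set.ncard_le_ncard hsub (Set.toFinite _)
    rw [hm] at h1 h2 ⊢
    have h3 : 1 ≤ m := by
      by_contra h
      have : m = 0 := by omega
      rw [this, pow_zero, pow_one] at h1
      exact hp.one_lt.ne' (Nat.dvd_one.1 h1)
    have h4 : m < 2 := by
      by_contra h
      have h5 : p ^ 2 ≤ p ^ m := Nat.pow_le_pow_right hp.pos (by omega)
      have h6 : 3 ≤ p := by
        have := hp.two_le
        omega
      nlinarith
    have : m = 1 := by omega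
    rw [this, pow_one]
  obtain ⟨s, f, hf, hfinj, hfrange⟩ := exists_cycle S.isPGroup' x hcardS
  let O : Finset Y := univ.image f
  have hOmem : ∀ y, y ∈ O ↔ y ∈ orbit S x := by
    intro y
    rw [← hfrange]
    simp [O]
  have hOcard : O.card = p := by
    rw [Finset.card_image_of_injective _ hfinj, Finset.card_univ, ZMod.card]
  have hOinv : ∀ y ∈ O, inv y ∉ O := by
    intro y hy
    rw [hOmem] at hy ⊢
    exact orbit_half hinv hne hG p hp2 H S x hy
  have hOsub : ∀ y ∈ O, y ∈ B := by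
    intro y hy
    rw [hOmem] at hy
    rw [← horbH]
    obtain ⟨s, rfl⟩ := hy
    exact ⟨s, rfl⟩
  have hcover := half_cover_of hinv O hBinv hOsub hOinv (by rw [hcard, hOcard])
  have hxO : x ∈ O := (hOmem x).2 (mem_orbit_self x)
  -- relations in the block are relations of the sums over `O`
  have hrelO : ∀ c ∈ Rel G inv D B, ∀ g : G, ∑ y ∈ O, c y * D (g • y) = 0 := by
    intro c hc g
    have h1 := hc.2.1 g
    rw [sum_eq_two_mul hinv O hOinv hcover (fun y => c y * D (g • y)) (fun y => by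
      rw [hc.1, hG, hD]
      ring) (fun y hy => by rw [hc.2.2 y hy, zero_mul])] at h1
    exact (mul_eq_zero.1 h1).resolve_left two_ne_zero
  have hpow : ∀ (k : ℕ) (i : ZMod p), s ^ k • f i = f (i + k) := by
    intro k
    induction k with
    | zero =>
      intro i
      rw [pow_zero, one_smul, Nat.cast_zero, add_zero]
    | succ k ih =>
      intro i
      rw [pow_succ', mul_smul, ih, hf]
      congr 1
      push_cast
      ring
  have hcorr : ∀ c ∈ Rel G inv D B, ∀ (g : G) (i : ZMod p),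
      ∑ j, c (f j) * D (g • f (j + i)) = 0 := by
    intro c hc g i
    obtain ⟨h, hh, hs⟩ := hSlift (s ^ i.val)
    have h1 := hrelO c hc (g * h)
    rw [Finset.sum_image (fun a _ b _ hab => hfinj hab)] at h1
    rw [← h1]
    refine Finset.sum_congr rfl fun j _ => ?_
    rw [mul_smul, ← hs, hpow, ZMod.natCast_zmod_val]
  by_cases hall : ∀ c ∈ Rel G inv D B, ∀ i j, c (f i) = c (f j)
  · right
    have hconst : ∀ c ∈ Rel G inv D B, ∀ y ∈ O, c y = c x := by
      intro c hc y hy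
      obtain ⟨i, -, rfl⟩ := Finset.mem_image.1 hy
      obtain ⟨j, -, hj⟩ := Finset.mem_image.1 hxO
      rw [← hj]
      exact hall c hc i j
    refine ⟨O, hxO, hOcard, hOsub, hOinv, ?_, ?_⟩
    · intro g y hy hgy z hz
      have hgH : ∀ w, g • w ∈ B ↔ w ∈ B := fun w => hstab g y (hOsub y hy) (hOsub _ hgy) w
      have h1 : (fun y => c₁ (g • y)) ∈ Rel G inv D B :=
        comp_mem hG hc₁ g fun y hy => by rwa [hgH]
      have h2 : c₁ (g • z) = c₁ (g • y) :=
        (hconst _ h1 z hz).trans (hconst _ h1 y hy).symm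
      rw [hconst c₁ hc₁ _ hgy] at h2
      rcases (hcover (g • z)).1 ((hgH z).2 (hOsub z hz)) with h3 | h3
      · exact h3
      · exfalso
        have h4 := hconst c₁ hc₁ _ h3
        rw [hc₁.1, h2] at h4
        apply hc₁x
        linarith
    · intro g
      have h1 := hrelO c₁ hc₁ g
      have h2 : ∑ y ∈ O, c₁ y * D (g • y) = c₁ x * ∑ y ∈ O, D (g • y) := by
        rw [Finset.mul_sum]
        exact Finset.sum_congr rfl fun y hy => by rw [hconst c₁ hc₁ y hy]
      rw [h2] at h1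
      exact (mul_eq_zero.1 h1).resolve_left hc₁x
  · left
    push Not at hall
    obtain ⟨c₂, hc₂, i₀, j₀, hij⟩ := hall
    have hfB : ∀ i, f i ∈ B := fun i => hOsub _ (Finset.mem_image_of_mem f (Finset.mem_univ i))
    refine ⟨f 0, hfB 0, f 1, hfB 1, fun h => ?_, fun g => ?_⟩
    · have h1 := hfinj h
      exact zero_ne_one h1
    · rcases const_of_correlation (fun j => c₂ (f j)) (fun j => D (g • f j))
        (fun i => hcorr c₂ hc₂ g i) with h1 | h1
      · exact absurd (h1 i₀ j₀) hij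
      · exact h1 0 1

theorem block_two (hinv : ∀ y, inv (inv y) = y)
    (hne : ∀ y, inv y ≠ y) (hG : ∀ (g : G) (y : Y), g • inv y = inv (g • y))
    (hD : ∀ y, D (inv y) = -D y) {x : Y} (hx : x ∈ B)
    (hBinv : ∀ y ∈ B, inv y ∈ B)
    (hstab : ∀ (g : G), ∀ y ∈ B, g • y ∈ B → ∀ z, g • z ∈ B ↔ z ∈ B)
    (htr : ∀ y ∈ B, ∃ g : G, g • x = y)
    (hcard : B.ncard = 4) {c : Y → ℤ} (hc : c ∈ Rel G inv D B)
    (hcx : c x ≠ 0) : ∃ y₁ ∈ B, ∃ y₂ ∈ B, y₁ ≠ y₂ ∧ ∀ g : G, D (g • y₁) = D (g • y₂) := by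
  classical
  -- a second element
  obtain ⟨z, hz, hzx, hzix⟩ : ∃ z ∈ B, z ≠ x ∧ z ≠ inv x := by
    by_contra h
    push Not at h
    have h1 : B ⊆ {x, inv x} := by
      intro y hy
      by_cases hyx : y = x
      · exact Or.inl hyx
      · exact Or.inr (h y hy hyx)
    have h2 := Set.ncard_le_ncard h1 (Set.toFinite _)
    have h3 := Set.ncard_insert_le x {inv x}
    rw [Set.ncard_singleton] at h3
    omega
  let O : Finset Y := {x, z}
  have hO : ∀ y ∈ O, inv y ∉ O := by
    intro y hy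
    simp only [O, Finset.mem_insert, Finset.mem_singleton] at hy ⊢
    rcases hy with rfl | rfl
    · rintro (h | h)
      · exact hne _ h
      · exact hzix h.symm
    · rintro (h | h)
      · apply hzix
        rw [← h, hinv]
      · exact hne _ h
  have hsub : ∀ y ∈ O, y ∈ B := by
    intro y hy
    simp only [O, Finset.mem_insert, Finset.mem_singleton] at hy
    rcases hy with rfl | rfl
    · exact hx
    · exact hz
  have hOcard : O.card = 2 := Finset.card_pair hzx.symm
  have hcover := half_cover_of hinv O hBinv hsub hO (by rw [hcard, hOcard])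
  have hrel : ∀ g : G, c x * D (g • x) + c z * D (g • z) = 0 := by
    intro g
    have h1 := hc.2.1 g
    rw [sum_eq_two_mul hinv O hO hcover (fun y => c y * D (g • y)) (fun y => by
      rw [hc.1, hG, hD]
      ring) (fun y hy => by rw [hc.2.2 y hy, zero_mul])] at h1
    have h2 := (mul_eq_zero.1 h1).resolve_left two_ne_zero
    rwa [Finset.sum_pair hzx.symm] at h2
  obtain ⟨t, rfl⟩ := htr z hz
  have htB : ∀ w, t • w ∈ B ↔ w ∈ B := fun w => hstab t x hx hz w
  by_cases hall : ∀ g : G, D (g • t • x) = 0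
  · have hzero : ∀ g : G, D (g • x) = 0 := by
      intro g
      have h1 := hall (g * t⁻¹)
      rwa [mul_smul, inv_smul_smul] at h1
    exact ⟨x, hx, inv x, hBinv x hx, (hne x).symm, fun g => by
      rw [hG, hD, hzero, neg_zero]⟩
  push Not at hall
  obtain ⟨g₁, hg₁⟩ := hall
  -- the square of `t`
  have htt : t • t • x = x ∨ t • t • x = inv x := by
    have h1 := (hcover (t • t • x)).1 ((htB _).2 hz)
    simp only [O, Finset.mem_insert, Finset.mem_singleton] at h1
    rcases h1 with (h | h) | (h | h)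
    · exact Or.inl h
    · exact absurd (smul_left_cancel t h) hzx
    · right
      rw [← hinv (t • t • x), h]
    · exfalso
      have h2 : t • inv (t • x) = t • x := by rw [hG, h]
      have h3 := smul_left_cancel t h2
      apply hzix
      rw [← hinv (t • x), h3]
  have hmain : c (t • x) = c x ∨ c (t • x) = -c x := by
    have h1 := hrel g₁
    have h2 := hrel (g₁ * t)
    rw [mul_smul, mul_smul] at h2
    rcases htt with h | h
    · rw [h] at h2
      have h3 : (c (t • x) - c x) * (c (t • x) + c x) * D (g₁ • t • x) = 0 := by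
        linear_combination c (t • x) * h1 - c x * h2
      have h4 := (mul_eq_zero.1 h3).resolve_right hg₁
      rcases mul_eq_zero.1 h4 with h5 | h5
      · left; linarith
      · right; linarith
    · rw [h, hG, hD] at h2
      exfalso
      have h3 : (c x * c x + c (t • x) * c (t • x)) * D (g₁ • t • x) = 0 := by
        linear_combination c (t • x) * h1 + c x * h2
      have h4 := (mul_eq_zero.1 h3).resolve_right hg₁
      have h5 : 0 < c x * c x := mul_self_pos.2 hcx
      nlinarith [mul_self_nonneg (c (t • x))]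
  rcases hmain with h | h
  · refine ⟨x, hx, inv (t • x), hBinv _ hz, fun hh => hzix ?_, fun g => ?_⟩
    · rw [← hinv (t • x), ← hh]
    · have h1 := hrel g
      rw [h, ← mul_add] at h1
      have h2 := (mul_eq_zero.1 h1).resolve_left hcx
      rw [hG, hD]
      linarith
  · refine ⟨x, hx, t • x, hz, hzx.symm, fun g => ?_⟩
    have h1 := hrel g
    rw [h] at h1
    have h2 : c x * (D (g • x) - D (g • t • x)) = 0 := by linear_combination h1
    have h3 := (mul_eq_zero.1 h2).resolve_left hcx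
    linarith

theorem block_one (hinv : ∀ y, inv (inv y) = y)
    (hne : ∀ y, inv y ≠ y) (hG : ∀ (g : G) (y : Y), g • inv y = inv (g • y))
    (hD : ∀ y, D (inv y) = -D y) {x : Y} (hx : x ∈ B) (hBinv : ∀ y ∈ B, inv y ∈ B)
    (hcard : B.ncard = 2) {c : Y → ℤ} (hc : c ∈ Rel G inv D B)
    (hcx : c x ≠ 0) : ∃ y₁ ∈ B, ∃ y₂ ∈ B, y₁ ≠ y₂ ∧ ∀ g : G, D (g • y₁) = D (g • y₂) := by
  classical
  have hcover := half_cover_of hinv {x} hBinv (fun y hy => by
    rw [Finset.mem_singleton] at hy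
    rw [hy]
    exact hx) (fun y hy => by
      rw [Finset.mem_singleton] at hy ⊢
      rw [hy]
      exact hne x) (by rw [hcard, Finset.card_singleton])
  have hz : ∀ g : G, D (g • x) = 0 := by
    intro g
    have h1 := hc.2.1 g
    rw [sum_eq_two_mul hinv {x} (fun y hy => by
        rw [Finset.mem_singleton] at hy ⊢
        rw [hy]
        exact hne x) hcover (fun y => c y * D (g • y)) (fun y => by
      rw [hc.1, hG, hD]
      ring) (fun y hy => by rw [hc.2.2 y hy, zero_mul])] at h1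
    have h2 := (mul_eq_zero.1 h1).resolve_left two_ne_zero
    rw [Finset.sum_singleton] at h2
    exact (mul_eq_zero.1 h2).resolve_left hcx
  exact ⟨x, hx, inv x, hBinv x hx, (hne x).symm, fun g => by rw [hG, hD, hz, neg_zero]⟩

/-- **Relations in a block which is covered by a smaller block with a doubly transitive
stabilizer.** -/
theorem two_trans_block [DecidableEq Y] (hinv : ∀ y, inv (inv y) = y)
    (hne : ∀ y, inv y ≠ y) (hG : ∀ (g : G) (y : Y), g • inv y = inv (g • y))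
    (hD : ∀ y, D (inv y) = -D y) {x : Y} (O : Finset Y) (hx : x ∈ O)
    (hO : ∀ y ∈ O, inv y ∉ O) (hcover : ∀ y, y ∈ B ↔ y ∈ O ∨ inv y ∈ O)
    (hblock : ∀ (g : G), ∀ y ∈ O, g • y ∈ O → ∀ z ∈ O, g • z ∈ O)
    (h2 : ∀ y₁ ∈ O, ∀ y₂ ∈ O, ∀ z₁ ∈ O, ∀ z₂ ∈ O, y₁ ≠ y₂ → z₁ ≠ z₂ →
      ∃ g : G, g • y₁ = z₁ ∧ g • y₂ = z₂) {c : Y → ℤ} (hc : c ∈ Rel G inv D B)
    (hcx : c x ≠ 0) : (∃ y₁ ∈ B, ∃ y₂ ∈ B, y₁ ≠ y₂ ∧ ∀ g : G, D (g • y₁) = D (g • y₂)) ∨
      ∀ g : G, ∑ y ∈ O, D (g • y) = 0 := by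
  classical
  have hrel : ∀ g : G, ∑ y ∈ O, c y * D (g • y) = 0 := by
    intro g
    have h1 := hc.2.1 g
    rw [sum_eq_two_mul hinv O hO hcover (fun y => c y * D (g • y)) (fun y => by
      rw [hc.1, hG, hD]
      ring) (fun y hy => by rw [hc.2.2 y hy, zero_mul])] at h1
    exact (mul_eq_zero.1 h1).resolve_left two_ne_zero
  by_cases hconst : ∀ y ∈ O, c y = c x
  · right
    intro g
    have h1 := hrel g
    rw [Finset.sum_congr rfl (g := fun y => c x * D (g • y)) fun y hy => by rw [hconst y hy],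
      ← Finset.mul_sum] at h1
    exact (mul_eq_zero.1 h1).resolve_left hcx
  left
  push Not at hconst
  obtain ⟨y', hy', hcy'⟩ := hconst
  set S : ℤ := ∑ y ∈ O, c y with hS
  have hcardpos : 0 < O.card := Finset.card_pos.2 ⟨x, hx⟩
  -- a point where the value is not the mean
  obtain ⟨z, hz, hzS⟩ : ∃ z ∈ O, (O.card : ℤ) * c z ≠ S := by
    by_contra h
    push Not at h
    apply hcy'
    have h1 := h x hx
    have h2 := h y' hy'
    have h3 : (O.card : ℤ) ≠ 0 := by exact_mod_cast hcardpos.ne'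
    exact mul_left_cancel₀ h3 (h2.trans h1.symm)
  obtain ⟨y₀, hy₀, hy₀z⟩ : ∃ y₀ ∈ O, y₀ ≠ z := by
    by_cases h : x = z
    · refine ⟨y', hy', fun h1 => hcy' ?_⟩
      rw [h1, h]
    · exact ⟨x, hx, h⟩
  let P : Finset (Equiv.Perm Y) := univ.filter fun s => ∃ g : G, (∀ y, s y = g • y) ∧ g • z = z
  have hP : ∀ s, s ∈ P ↔ ∃ g : G, (∀ y, s y = g • y) ∧ g • z = z := fun s => by simp [P]
  have h1P : (1 : Equiv.Perm Y) ∈ P := (hP 1).2 ⟨1, fun y => by simp, one_smul G z⟩
  have hPpos : (P.card : ℤ) ≠ 0 := by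
    exact_mod_cast (Finset.card_pos.2 ⟨1, h1P⟩).ne'
  let b : Y → ℤ := fun y => ∑ s ∈ P, c (s y)
  have hbrel : ∀ g : G, ∑ y ∈ O, b y * D (g • y) = 0 := by
    intro g
    simp only [b, Finset.sum_mul]
    rw [Finset.sum_comm]
    refine Finset.sum_eq_zero fun s hs => ?_
    obtain ⟨h, hh, hhz⟩ := (hP s).1 hs
    have h3 := sum_block O hblock (h := h) hz (by rwa [hhz]) fun y => c y * D ((g * h⁻¹) • y)
    rw [hrel (g * h⁻¹)] at h3
    rw [← h3]
    refine Finset.sum_congr rfl fun y _ => ?_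
    rw [hh, mul_smul, inv_smul_smul]
  have hbz : b z = P.card * c z := by
    simp only [b]
    rw [Finset.sum_congr rfl (g := fun _ => c z) fun s hs => ?_, Finset.sum_const, nsmul_eq_mul]
    obtain ⟨h, hh, hhz⟩ := (hP s).1 hs
    rw [hh, hhz]
  have hbc : ∀ y ∈ O, y ≠ z → b y = b y₀ := by
    intro y hy hyz
    obtain ⟨h, h3, h4⟩ := h2 z hz y hy z hz y₀ hy₀ hyz.symm hy₀z.symm
    have h5 : ∑ s ∈ P, c (s y₀) =
        ∑ s ∈ P, c ((s * (MulAction.toPerm h : Equiv.Perm Y)) y) := by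
      refine Finset.sum_congr rfl fun s _ => ?_
      rw [Equiv.Perm.mul_apply, MulAction.toPerm_apply, h4]
    change ∑ s ∈ P, c (s y) = ∑ s ∈ P, c (s y₀)
    rw [h5]
    symm
    refine Finset.sum_equiv (Equiv.mulRight (MulAction.toPerm h : Equiv.Perm Y)) ?_
      fun s _ => rfl
    intro s
    rw [hP, hP]
    constructor
    · rintro ⟨g, hg, hgz⟩
      refine ⟨g * h, fun w => ?_, by rw [mul_smul, h3, hgz]⟩
      change s (h • w) = _
      rw [hg, mul_smul]
    · rintro ⟨g, hg, hgz⟩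
      refine ⟨g * h⁻¹, fun w => ?_, ?_⟩
      · have h6 := hg (h⁻¹ • w)
        change s (h • h⁻¹ • w) = _ at h6
        rw [smul_inv_smul] at h6
        rw [h6, mul_smul]
      · have h6 : h⁻¹ • z = z := by rw [inv_smul_eq_iff, h3]
        rw [mul_smul, h6, hgz]
  have hbsum : ∑ y ∈ O, b y = P.card * S := by
    simp only [b]
    rw [Finset.sum_comm, Finset.sum_congr rfl (g := fun _ => S) fun s hs => ?_, Finset.sum_const,
      nsmul_eq_mul]
    obtain ⟨h, hh, hhz⟩ := (hP s).1 hs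
    rw [hS, ← sum_block O hblock (h := h) hz (by rwa [hhz]) c]
    exact Finset.sum_congr rfl fun y _ => by rw [hh]
  have hsplit : ∀ f : Y → ℤ, ∑ y ∈ O, f y = f z + ∑ y ∈ O.erase z, f y := fun f =>
    (Finset.add_sum_erase O f hz).symm
  have hbne : b z ≠ b y₀ := by
    intro h
    apply hzS
    have h3 : ∑ y ∈ O, b y = O.card * b z := by
      rw [Finset.sum_congr rfl (g := fun _ => b z) fun y hy => ?_, Finset.sum_const, nsmul_eq_mul]
      by_cases hyz : y = z
      · rw [hyz]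
      · rw [hbc y hy hyz, h]
    rw [hbsum, hbz] at h3
    refine mul_left_cancel₀ hPpos ?_
    rw [h3]
    ring
  have hmain : ∀ g : G, (b z - b y₀) * D (g • z) + b y₀ * ∑ y ∈ O, D (g • y) = 0 := by
    intro g
    have h3 := hbrel g
    rw [hsplit fun y => b y * D (g • y), Finset.sum_congr rfl (g := fun y => b y₀ * D (g • y))
      fun y hy => by rw [hbc y (Finset.mem_of_mem_erase hy) (Finset.ne_of_mem_erase hy)],
      ← Finset.mul_sum] at h3
    rw [hsplit fun y => D (g • y)]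
    linear_combination h3
  obtain ⟨h, h3, -⟩ := h2 z hz y₀ hy₀ y₀ hy₀ z hz hy₀z.symm hy₀z
  refine ⟨z, (hcover z).2 (Or.inl hz), y₀, (hcover y₀).2 (Or.inl hy₀), hy₀z.symm, fun g => ?_⟩
  have h4 := hmain g
  have h5 := hmain (g * h)
  have h6 : ∑ y ∈ O, D ((g * h) • y) = ∑ y ∈ O, D (g • y) := by
    rw [← sum_block O hblock (h := h) hz (by rwa [h3]) fun y => D (g • y)]
    exact Finset.sum_congr rfl fun y _ => by rw [mul_smul]
  rw [h6, mul_smul, h3] at h5
  have h7 : (b z - b y₀) * (D (g • z) - D (g • y₀)) = 0 := by linear_combination h4 - h5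
  have h8 := (mul_eq_zero.1 h7).resolve_left (sub_ne_zero.2 hbne)
  linarith

/-- **Small blocks.** A function with a relation supported on a block with one or a prime number of
pairs is constant on a pair of points, or balanced on a block. -/
theorem small_block (hinv : ∀ y, inv (inv y) = y)
    (hne : ∀ y, inv y ≠ y) (hG : ∀ (g : G) (y : Y), g • inv y = inv (g • y))
    (hD : ∀ y, D (inv y) = -D y) (p : ℕ) (hp : p = 1 ∨ p.Prime) {x : Y} (hx : x ∈ B)
    (hBinv : ∀ y ∈ B, inv y ∈ B)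
    (hstab : ∀ (g : G), ∀ y ∈ B, g • y ∈ B → ∀ z, g • z ∈ B ↔ z ∈ B)
    (htr : ∀ y ∈ B, ∃ g : G, g • x = y)
    (hcard : B.ncard = 2 * p) {c : Y → ℤ} (hc : c ∈ Rel G inv D B) (hcx : c x ≠ 0) :
    (∃ y₁ ∈ B, ∃ y₂ ∈ B, y₁ ≠ y₂ ∧ ∀ g : G, D (g • y₁) = D (g • y₂)) ∨
    (p.Prime ∧ p ≠ 2 ∧ ∃ O : Finset Y, x ∈ O ∧ O.card = p ∧ (∀ y ∈ O, y ∈ B) ∧
      (∀ y ∈ O, inv y ∉ O) ∧
      (∀ (g : G), ∀ y ∈ O, g • y ∈ O → ∀ z ∈ O, g • z ∈ O) ∧
      (∀ g : G, ∑ y ∈ O, D (g • y) = 0)) := by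
  rcases hp with rfl | hp
  · exact Or.inl (block_one hinv hne hG hD hx hBinv (by rw [hcard]) hc hcx)
  · by_cases hp2 : p = 2
    · subst hp2
      exact Or.inl (block_two hinv hne hG hD hx hBinv hstab htr (by rw [hcard]) hc hcx)
    · have _ : Fact p.Prime := ⟨hp⟩
      rcases prime_block_odd hinv hne hG hD p hp2 hx hBinv hstab htr hcard hc hcx with h | h
      · exact Or.inl h
      · exact Or.inr ⟨hp, hp2, h⟩

end Pool.Agent.H395
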