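import Mathlib
import Pool.Agent.H395.C298
import Pool.Graph.R_pool_sql_team_seeded_3997aac3.Q29.DP.Lat

/-!
# Relations between the translates of a function on a set with a prime power of elements
-/

set_option autoImplicit false
set_option linter.unusedSectionVars false

namespace Pool.Agent.H395

open MulAction Finset C298

/-- A finite group acts transitively on a set with `p ^ k` elements. The translates of a function
whose sum is not divisible by `p` satisfy no relation. -/
theorem no_rel_sylow {H X : Type*} [Group H] [Finite H] [MulAction H X] [Fintype X]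
    [IsPretransitive H X] (p k : ℕ) [Fact p.Prime] (hcard : Nat.card X = p ^ k) (n : X → ℤ)
    (hn : ¬ (p : ℤ) ∣ ∑ x, n x) (c : X → ℤ) (hrel : ∀ h : H, ∑ x, c x * n (h • x) = 0) : c = 0 := by
  classical
  by_contra hc0
  have hp : p.Prime := Fact.out
  have hp0 : (p : ℤ) ≠ 0 := by exact_mod_cast hp.ne_zero
  let M : AddSubgroup (X → ℤ) :=
    { carrier := {c | ∀ h : H, ∑ x, c x * n (h • x) = 0}
      zero_mem' := fun h => by simp
      add_mem' := by
        intro a b ha hb h
        simp only [Pi.add_apply, add_mul, sum_add_distrib, ha h, hb h, add_zero]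
      neg_mem' := by
        intro a ha h
        simp only [Pi.neg_apply, neg_mul, sum_neg_distrib, ha h, neg_zero] }
  have hM : ∀ c, c ∈ M ↔ ∀ h : H, ∑ x, c x * n (h • x) = 0 := fun c => Iff.rfl
  obtain ⟨S⟩ := (inferInstance : Nonempty (Sylow p H))
  obtain ⟨c', hc', hnd, hfix⟩ := Pool.Agent.Q29.DP.exists_fixed_mod (S := S) (Y := X) p S.isPGroup'
    M (by
      intro s c hc
      rw [hM] at hc ⊢
      intro h
      rw [← hc (h * s)]
      refine Fintype.sum_equiv (MulAction.toPerm (s⁻¹ : S)) _ _ fun x => ?_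
      rw [MulAction.toPerm_apply, mul_smul]
      congr 2
      congr 1
      exact (smul_inv_smul s x).symm) ⟨c, hrel, hc0⟩
  have hne : Nonempty X := by
    by_contra h
    rw [not_nonempty_iff] at h
    exact hc0 (Subsingleton.elim _ _)
  obtain ⟨x₀⟩ := hne
  have htr : ∀ x : X, ∃ s : S, s⁻¹ • x₀ = x := by
    intro x
    have h1 : orbit H x₀ = Set.univ := orbit_eq_univ H x₀
    have h2 : x ∈ orbit S x₀ := sylow_transitive p S x₀ k (by
      rw [h1, Nat.card_congr (Equiv.Set.univ X), hcard]) (by rw [h1]; trivial)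
    obtain ⟨s, hs⟩ := h2
    exact ⟨s⁻¹, by rw [inv_inv]; exact hs⟩
  have hcong : ∀ x, (p : ℤ) ∣ c' x - c' x₀ := by
    intro x
    obtain ⟨s, rfl⟩ := htr x
    obtain ⟨m, -, hm⟩ := hfix s
    exact ⟨m x₀, hm x₀⟩
  have hx0 : ¬ (p : ℤ) ∣ c' x₀ := by
    intro h
    apply hnd
    have h1 : ∀ x, (p : ℤ) ∣ c' x := fun x => (dvd_sub_left h).1 (hcong x)
    choose m hm using h1
    refine ⟨m, ?_, funext hm⟩
    rw [hM] at hc' ⊢
    intro h
    have h2 := hc' h
    have h3 : ∑ x, c' x * n (h • x) = p * ∑ x, m x * n (h • x) := by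
      rw [mul_sum]
      exact sum_congr rfl fun x _ => by rw [hm]; ring
    rw [h3] at h2
    exact (mul_eq_zero.1 h2).resolve_left hp0
  have h1 := (hM _).1 hc' 1
  simp only [one_smul] at h1
  have h2 : (p : ℤ) ∣ c' x₀ * ∑ x, n x := by
    have h4 : c' x₀ * ∑ x, n x = -∑ x, (c' x - c' x₀) * n x := by
      simp only [sub_mul, sum_sub_distrib]
      rw [h1, ← mul_sum]
      ring
    rw [h4, dvd_neg]
    exact dvd_sum fun x _ => Dvd.dvd.mul_right (hcong x) _
  have h5 : Prime (p : ℤ) := Nat.prime_iff_prime_int.1 Fact.out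
  exact (h5.dvd_or_dvd h2).elim hx0 hn

end Pool.Agent.H395
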