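import Mathlib
import Pool.Graph.R_seed8.TH127.SC.Core
import Pool.Agent.H395.Sylow

/-!
# Relations between the translates of a function: classes with a block of half the size
-/

set_option autoImplicit false
set_option linter.unusedSectionVars false
set_option linter.unusedVariables false

namespace Pool.Agent.H395

open Finset MulAction Pool.Agent.TH127.SC

/-- The class of `y₀` consists of translates of `y₀`, and it is the union of a block `R` with
`r ^ k` elements, `r` a prime number, and of the block of the partners. On `R` the function `d` is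
`α * n + β`, where `α` is not zero, the sum of `d` over `R` is not zero and the sum of the integral
function `n` is not divisible by `r`. -/
def BlockClass (G : Type*) {Y : Type*} [Group G] [MulAction G Y] (cb : Y → Y) (d : Y → ℚ)
    (y₀ : Y) : Prop :=
  (∀ z, Link G cb y₀ z → ∃ g : G, g • y₀ = z) ∧
    ∃ (r k : ℕ) (R : Finset Y) (α β : ℚ) (n : Y → ℤ), r.Prime ∧ R.card = r ^ k ∧
      (∀ z, Link G cb y₀ z ↔ (z ∈ R ∨ cb z ∈ R)) ∧ (∀ z ∈ R, cb z ∉ R) ∧
      (∀ g : G, ∀ z ∈ R, g • z ∈ R → ∀ w ∈ R, g • w ∈ R) ∧ (∀ z ∈ R, d z = α * n z + β) ∧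
      α ≠ 0 ∧ ∑ z ∈ R, d z ≠ 0 ∧ ¬ (r : ℤ) ∣ ∑ z ∈ R, n z

variable {G Y : Type*} [Group G] [MulAction G Y] {cb : Y → Y} [Fintype Y] [Finite G]
  (hcb : ∀ y, cb (cb y) = y) (hne : ∀ y, cb y ≠ y)
  (hG : ∀ (g : G) (y : Y), g • cb y = cb (g • y))

include hcb hne hG in
theorem zero_at_block {W : Y → ℤ} (hW : ∀ y, W (cb y) = -W y)
    {c : Y → ℤ} (hc : ∀ y, c (cb y) = -c y) (hrel : ∀ g : G, ∑ y, c y * W (g • y) = 0) {y₀ : Y}
    (g₀ : G) {d : Y → ℚ} {κ : ℚ} (hκ : κ ≠ 0)
    (hd : ∀ z, Link G cb y₀ z → d z = κ * W (g₀ • z)) (hclass : BlockClass G cb d y₀) :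
    c y₀ = 0 := by
  classical
  have := Fintype.ofFinite G
  obtain ⟨htr, r, k, R, α, β, n, hr, hcard, hcov, hhalf, hblock, hlin, hα, hsum, hnd⟩ := hclass
  have : Fact r.Prime := ⟨hr⟩
  have hcl : ∀ g' : G, ∑ z ∈ Finset.univ.filter (fun z => Link G cb y₀ z),
      c z * W (g' • z) = 0 := fun g' => core_split hG hW hrel y₀ g'
  -- the relation on `R`
  have hR : ∀ g' : G, ∑ z ∈ R, c z * W (g' • z) = 0 := by
    intro g'
    have h1 := hcl g'
    rw [Finset.sum_filter] at h1
    rw [C298.sum_eq_two_mul (inv := cb) (B := {z | Link G cb y₀ z}) hcb R hhalf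
      (fun y => hcov y) (fun y => if Link G cb y₀ y then c y * W (g' • y) else 0) (by
        intro y
        have h2 : Link G cb y₀ (cb y) ↔ Link G cb y₀ y :=
          ⟨fun h => link_trans h (link_symm (link_cb hcb hne hG y)),
            fun h => link_trans h (link_cb hcb hne hG y)⟩
        by_cases hy : Link G cb y₀ y
        · simp only [hy, h2.2 hy, if_true]
          rw [hG, hc, hW]
          ring
        · simp only [hy, h2.not.2 hy, if_false]) (by
        intro y hy
        have hy' : ¬ Link G cb y₀ y := hy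
        simp only [hy', if_false])] at h1
    have h2 := (mul_eq_zero.1 h1).resolve_left two_ne_zero
    rw [← h2]
    refine Finset.sum_congr rfl fun z hz => ?_
    have : Link G cb y₀ z := (hcov z).2 (Or.inl hz)
    simp only [this, if_true]
  -- the stabilizer of the block
  let H : Subgroup G :=
    { carrier := {g | ∀ w, g • w ∈ R ↔ w ∈ R}
      one_mem' := fun w => by rw [one_smul]
      mul_mem' := fun {g h} hg hh w => by rw [mul_smul]; exact (hg _).trans (hh _)
      inv_mem' := fun {g} hg w => by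
        have h1 := hg (g⁻¹ • w)
        rw [smul_inv_smul] at h1
        exact h1.symm }
  have hH : ∀ (g : G) (z : Y), z ∈ R → g • z ∈ R → g ∈ H := by
    intro g z hz hgz w
    have h1 := hblock g z hz hgz
    have h2 : R.image (fun w => g • w) = R := by
      apply Finset.eq_of_subset_of_card_le
      · intro y hy
        obtain ⟨w, hw, rfl⟩ := Finset.mem_image.1 hy
        exact h1 w hw
      · rw [Finset.card_image_of_injective _ (MulAction.injective g)]
    constructor
    · intro hw
      rw [← h2] at hw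
      obtain ⟨w', hw', h3⟩ := Finset.mem_image.1 hw
      rwa [← MulAction.injective g h3]
    · exact h1 w
  let X : Type _ := {w : Y // w ∈ R}
  let _ : MulAction H X :=
    { smul := fun h x => ⟨(h : G) • x.1, (h.2 x.1).2 x.2⟩
      one_smul := fun x => Subtype.ext (one_smul G x.1)
      mul_smul := fun g h x => Subtype.ext (mul_smul (g : G) (h : G) x.1) }
  have hact : ∀ (h : H) (x : X), ((h • x : X) : Y) = (h : G) • x.1 := fun h x => rfl
  have : MulAction.IsPretransitive H X := by
    refine ⟨fun x y => ?_⟩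
    obtain ⟨l, hl⟩ := htr x.1 ((hcov _).2 (Or.inl x.2))
    obtain ⟨l', hl'⟩ := htr y.1 ((hcov _).2 (Or.inl y.2))
    have h1 : (l' * l⁻¹) • x.1 = y.1 := by rw [mul_smul, ← hl, inv_smul_smul, hl']
    exact ⟨⟨l' * l⁻¹, hH _ x.1 x.2 (by rw [h1]; exact y.2)⟩, Subtype.ext h1⟩
  have hRX : ∀ h : H, ∑ x : X, (c x.1 : ℚ) * d (h • x : X).1 = 0 := by
    intro h
    have h1 := hR (g₀ * h)
    have h2 : ∑ x : X, c x.1 * W (g₀ • (h • x : X).1) = 0 := by
      rw [← h1, ← Finset.sum_coe_sort R]
      refine Finset.sum_congr rfl fun x _ => ?_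
      rw [hact, mul_smul]
    have h3 : ∑ x : X, (c x.1 : ℚ) * d (h • x : X).1 =
        κ * ((∑ x : X, c x.1 * W (g₀ • (h • x : X).1) : ℤ) : ℚ) := by
      push_cast
      rw [Finset.mul_sum]
      refine Finset.sum_congr rfl fun x _ => ?_
      rw [hd _ ((hcov _).2 (Or.inl (h • x : X).2))]
      ring
    rw [h3, h2, Int.cast_zero, mul_zero]
  have := Fintype.ofFinite H
  have hXne : Nonempty X := by
    by_contra h
    rw [not_nonempty_iff] at h
    apply hsum
    rw [← Finset.sum_coe_sort R]
    exact Finset.sum_of_isEmpty _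
  obtain ⟨x₀⟩ := hXne
  -- the sum of the coefficients
  have hsum0 : ∑ x : X, (c x.1 : ℚ) = 0 := by
    let D : X → ℚ := fun x => ∑ h : H, d (h • x : X).1
    have hDinv : ∀ (g : H) (x : X), D (g • x) = D x := by
      intro g x
      simp only [D, ← mul_smul]
      exact Fintype.sum_equiv (Equiv.mulRight g) _ _ fun h => rfl
    have hD : ∀ x, D x = D x₀ := by
      intro x
      obtain ⟨g, rfl⟩ := exists_smul_eq H x₀ x
      exact hDinv g x₀
    have h1 : ∑ x : X, D x = Fintype.card H * ∑ x : X, d x.1 := by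
      simp only [D]
      rw [Finset.sum_comm]
      rw [Finset.sum_congr rfl (fun h _ =>
        Fintype.sum_equiv (MulAction.toPerm h) (fun x : X => d (h • x : X).1) (fun x : X => d x.1)
          fun x => rfl)]
      rw [Finset.sum_const, Finset.card_univ, nsmul_eq_mul]
    have hD0 : D x₀ ≠ 0 := by
      intro h0
      rw [Finset.sum_congr rfl (fun x _ => (hD x).trans h0), Finset.sum_const_zero] at h1
      rcases mul_eq_zero.1 h1.symm with h2 | h2
      · exact Fintype.card_ne_zero (by exact_mod_cast h2)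
      · apply hsum
        rw [← Finset.sum_coe_sort R]
        exact h2
    have h2 : ∑ x : X, (c x.1 : ℚ) * D x = 0 := by
      simp only [D, Finset.mul_sum]
      rw [Finset.sum_comm]
      exact Finset.sum_eq_zero fun h _ => hRX h
    rw [Finset.sum_congr rfl (fun x _ => by rw [hD x]), ← Finset.sum_mul] at h2
    exact (mul_eq_zero.1 h2).resolve_right hD0
  have hrelX : ∀ h : H, ∑ x : X, c x.1 * n (h • x : X).1 = 0 := by
    intro h
    have h1 := hRX h
    have h2 : ∑ x : X, (c x.1 : ℚ) * d (h • x : X).1 =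
        α * ∑ x : X, (c x.1 : ℚ) * n (h • x : X).1 + (∑ x : X, (c x.1 : ℚ)) * β := by
      rw [Finset.mul_sum, Finset.sum_mul, ← Finset.sum_add_distrib]
      refine Finset.sum_congr rfl fun x _ => ?_
      rw [hlin _ (h • x : X).2]
      ring
    rw [h2, hsum0, zero_mul, add_zero] at h1
    have h3 := (mul_eq_zero.1 h1).resolve_left hα
    exact_mod_cast h3
  have hfin := no_rel_sylow (H := H) (X := X) r k (by
    rw [Nat.card_eq_fintype_card, Fintype.card_coe, hcard]) (fun x => n x.1) (by
    rw [← Finset.sum_coe_sort R] at hnd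
    exact hnd) (fun x => c x.1) hrelX
  rcases (hcov y₀).1 (link_refl _) with h | h
  · exact congrFun hfin ⟨y₀, h⟩
  · have h1 : c (cb y₀) = 0 := congrFun hfin ⟨cb y₀, h⟩
    rw [hc] at h1
    omega

end Pool.Agent.H395
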