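import Mathlib
import Pool.Graph.R_seed8.TH127.SC.Mixed
import Pool.Agent.H395.Block

/-!
# Classes of embeddings of a family of fields: local types
-/

set_option autoImplicit false

namespace Pool.Agent.H395

open NumberField Module Pool.Agent.W527 Pool.Agent.TH127.SC

variable {I : Type} {K : I → Type} [∀ i, Field (K i)] [∀ i, NumberField (K i)]

noncomputable instance [Fintype I] : Fintype (Embs K) :=
  inferInstanceAs (Fintype (Σ i, (K i →+* ℂ)))

/-- The rational number `q z` is the deviation of the slope of the conjugate `z` from the middle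
slope; the complex numbers are identified with the algebraic closure of `ℚ_p`. -/
def IsDeviation (p : ℕ) [Fact p.Prime] (m : I → ℕ) (π : ∀ i, K i) (ν : PadicAlgCl p ≃+* ℂ)
    (q : Embs K → ℚ) : Prop :=
  ∀ z, (q z : ℝ) = deviation p m π ν z

/-- The class of `x` consists of translates of `x`, and it is the union of a block `R` and of the
complex conjugate block; `R` has `r ^ k` elements, `r` a prime number. The sum of the deviations
over `R` is not zero, and on `R` they are of the form `α * n + β` with integers `n` whose sum is not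
divisible by `r`. -/
def UnitaryType (p : ℕ) [Fact p.Prime] (m : I → ℕ) (π : ∀ i, K i) (x : Embs K) : Prop :=
  ∃ (ν : PadicAlgCl p ≃+* ℂ) (q : Embs K → ℚ), IsDeviation p m π ν q ∧
    BlockClass (ℂ ≃+* ℂ) bar q x

open Classical in
/-- For every field of the family with an embedding in the class of `x` there is an embedding `z`
of this field whose deviation dominates the other deviations in the class of `z`, up to some
positive weights `t` of the fields: for the usual absolute value of the rational numbers its double
is larger than the sum of the others, or for the absolute value of some prime number it is larger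
than the others. -/
def DominatedType [Fintype I] (p : ℕ) [Fact p.Prime] (m : I → ℕ) (π : ∀ i, K i) (x : Embs K) :
    Prop :=
  ∃ (ν : PadicAlgCl p ≃+* ℂ) (q : Embs K → ℚ) (t : I → ℚ), IsDeviation p m π ν q ∧
    (∀ i, 0 < t i) ∧
    ((∀ y, SameClass x y → ∃ z : Embs K, z.1 = y.1 ∧
      ∑ w with (SameClass z w ∧ w ≠ z ∧ w ≠ bar z), t w.1 * |q w| < 2 * (t z.1 * |q z|)) ∨
    ∃ l : ℕ, l.Prime ∧ ∀ y, SameClass x y → ∃ z : Embs K, z.1 = y.1 ∧ q z ≠ 0 ∧
      ∀ w, SameClass z w → w ≠ z → w ≠ bar z →
        t w.1 * padicNorm l (q w) < t z.1 * padicNorm l (q z))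

/-- Any two different embeddings which agree on `F` can be moved to any other two by an automorphism
of the complex numbers, if the four embeddings agree on `F`. -/
def DoublyTransitive {E : Type} [Field E] [NumberField E] (F : IntermediateField ℚ E) : Prop :=
  ∀ φ₁ φ₂ ψ₁ ψ₂ : E →+* ℂ, φ₁ ≠ φ₂ → ψ₁ ≠ ψ₂ →
    (∀ x ∈ F, φ₂ x = φ₁ x ∧ ψ₁ x = φ₁ x ∧ ψ₂ x = φ₁ x) →
      ∃ τ : ℂ ≃+* ℂ, (τ : ℂ →+* ℂ).comp φ₁ = ψ₁ ∧ (τ : ℂ →+* ℂ).comp φ₂ = ψ₂

/-- The norm of `π` to `F` is supersingular: the number `N(π) ^ 2 / p ^ (m [E : F])` (`unitNorm`,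
library) is a root of unity. -/
def SupersingularNorm (p m : ℕ) {E : Type} [Field E] [NumberField E] (π : E)
    (F : IntermediateField ℚ E) : Prop :=
  ∃ s : ℕ, 0 < s ∧ Norm.unitNorm p m F π ^ s = 1

/-- The number `b` is one, or a prime number, or the degree of `E` over a CM subfield such that the
automorphisms of the complex numbers act doubly transitively on the extensions of an embedding; and
for the CM subfields `F` of `E` with `[E : F] = b` the norm of `π` to `F` is not supersingular. -/
def PrimitiveNumber (p m : ℕ) {E : Type} [Field E] [NumberField E] (π : E) (b : ℕ) : Prop :=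
  (b = 1 ∨ b.Prime ∨ ∃ F : IntermediateField ℚ E, ¬ IsTotallyReal F ∧ finrank F E = b ∧
    DoublyTransitive F) ∧
  ∀ F : IntermediateField ℚ E, finrank F E = b → ¬ IsTotallyReal F → ¬ SupersingularNorm p m π F

/-- The class of the embedding `x` of the field `K i` consists of translates of `x` and of `b` pairs,
where `b` satisfies the conditions in `PrimitiveNumber`. -/
def PrimitiveType (p : ℕ) (m : I → ℕ) (π : ∀ i, K i) (x : Embs K) : Prop :=
  (∀ z, SameClass x z → ∃ τ : ℂ ≃+* ℂ, τ • x = z) ∧
    ∃ b : ℕ, Nat.card {z : Embs K // SameClass x z} = 2 * b ∧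
      PrimitiveNumber p (m x.1) (π x.1) b

/-- The rational functions on the class of `x` which change their sign under complex conjugation
are an irreducible representation of the automorphisms of the complex numbers which preserve the
class. -/
def IrreducibleType (x : Embs K) : Prop :=
  ∀ V : Submodule ℚ (Embs K → ℚ),
    (∀ c ∈ V, (∀ z, c (bar z) = - c z) ∧ ∀ z, ¬ SameClass x z → c z = 0) →
    (∀ τ : ℂ ≃+* ℂ, SameClass x (τ • x) → ∀ c ∈ V, (fun z => c (τ • z)) ∈ V) →
      V = ⊥ ∨ ∀ c : Embs K → ℚ, (∀ z, c (bar z) = - c z) → (∀ z, ¬ SameClass x z → c z = 0) →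
        c ∈ V

/-- The class of the embedding `x` is of one of the six types. -/
def LocalType [Fintype I] (p : ℕ) [Fact p.Prime] (m : I → ℕ) (π : ∀ i, K i) (x : Embs K) : Prop :=
  OddType p m π x ∨ SumType p m π x ∨ UnitaryType p m π x ∨ DominatedType p m π x ∨
    PrimitiveType p m π x ∨ IrreducibleType x

/-- All positive powers of the Weil numbers `π i` generate the fields `K i`, and every field `K i`
has an embedding whose class is of one of the types. -/
def LocalTypes [Fintype I] (p : ℕ) [Fact p.Prime] (m : I → ℕ) (π : ∀ i, K i) : Prop :=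
  PowersGenerate π ∧ ∀ i, ∃ φ : K i →+* ℂ, LocalType p m π ⟨i, φ⟩

end Pool.Agent.H395
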