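import Mathlib
import Pool.Agent.H395.Angle
import Pool.Graph.R_seed8.TH170.GS.Rel
import Pool.Graph.R_pool_sql_team_seeded_1acbe0a2.Y156.P.AbsDefs
import Pool.Graph.R_pool_sql_team_seeded_1acbe0a2.Y156.P.Kro

/-!
# Abelian varieties over finite fields with Weil numbers of maximal angle rank
-/

set_option autoImplicit false
set_option linter.unusedSectionVars false
set_option linter.unusedVariables false

namespace Pool.Agent.H395

open NumberField Finset Module Pool.Agent.H204R3.CM Pool.Agent.H977R3.CM Pool.Agent.TH170.CM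
  Pool.Agent.TH170.MF Pool.Agent.W495.TA Pool.Agent.TH117 Pool.Agent.TH170.FW Pool.Agent.TH170
  Pool.Agent.Y156.P Pool.Agent.Y137.MV

variable {p : ℕ} [hp : Fact p.Prime] {ν : PadicAlgCl p ≃+* ℂ} {a : ℕ} {I : Type} [Fintype I]
  {K : I → Type} [∀ i, Field (K i)] [∀ i, NumberField (K i)] [∀ i, IsCMField (K i)]

/-- All relations between the Frobenius eigenvalues of an abelian variety with Weil numbers of maximal
angle rank are elementary. -/
theorem elementary_of_angle (ha : 0 < a) {π : ∀ i, K i}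
    (hw : ∀ i, π i * IsCMField.complexConj (K i) (π i) = (p : K i) ^ a)
    (hang : MaximalAngleRank (p ^ a) π) {Y : RedAV p ν} (hY : OfNumbers π Y) :
    BL.HasElementaryRelations Y := by
  classical
  intro e he
  let S : Y.X.I → Prop := fun k => GS.IsSupersingular p Y.a (Y.π k)
  have hY' : ∀ k, ¬ S k → ∃ (i : I) (θ : K i →+* (Y.X.factor k).E) (m s : ℕ), 0 < m ∧ 0 < s ∧
      θ (π i ^ m) = Y.π k ^ s := fun k hk => (hY k).resolve_left hk
  choose t θ m s hm hs hθ using hY'
  choose s' hs' hss' using fun k (h : S k) => h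
  have hp0 : (p : ℂ) ≠ 0 := Nat.cast_ne_zero.2 hp.out.ne_zero
  have hexp : ∀ k (h : ¬ S k), a * m k h = Y.a * s k h := by
    intro k h
    obtain ⟨χ⟩ : Nonempty ((Y.X.factor k).E →+* ℂ) := inferInstance
    have h1 : ‖χ (Y.π k)‖ ^ 2 = (p : ℝ) ^ Y.a := (Y.frob k).weil χ
    have hQ : π (t k h) * IsCMField.complexConj (K (t k h)) (π (t k h)) =
        ((p ^ a : ℕ) : K (t k h)) := by
      rw [hw]
      push_cast
      rfl
    have h2 := norm_sq_weil hQ (χ.comp (θ k h))
    have h3 : χ (Y.π k) ^ s k h = (χ.comp (θ k h)) (π (t k h)) ^ m k h := by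
      rw [← map_pow, ← hθ, ← map_pow (χ.comp (θ k h))]
      rfl
    have h4 : (‖χ (Y.π k)‖ ^ 2) ^ s k h = (‖(χ.comp (θ k h)) (π (t k h))‖ ^ 2) ^ m k h := by
      rw [← pow_mul, ← pow_mul, mul_comm 2 (s k h), mul_comm 2 (m k h), pow_mul, pow_mul,
        ← norm_pow (χ (Y.π k)), ← norm_pow ((χ.comp (θ k h)) (π (t k h))), h3]
    rw [h1, h2] at h4
    push_cast at h4
    rw [← pow_mul, ← pow_mul] at h4
    exact (Nat.pow_right_injective hp.out.two_le (by exact_mod_cast h4)).symm
  let X : Type := Σ i, (K i →+* ℂ)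
  let inv : X → X := fun z => ⟨z.1, ComplexEmbedding.conjugate z.2⟩
  have hinv : ∀ z, inv (inv z) = z := by
    rintro ⟨i, φ⟩
    simp only [inv, conj_conj]
  let val : X → ℂ := fun z => z.2 (π z.1)
  have hval : ∀ z, val z * val (inv z) = (p : ℂ) ^ a := by
    rintro ⟨i, φ⟩
    have h1 := congrArg φ (hw i)
    rw [map_mul, IsCMField.complexEmbedding_complexConj, map_pow, map_natCast] at h1
    exact h1
  let F : BL.Emb Y → Option X := fun w =>
    if h : S w.1 then none else some ⟨t w.1 h, w.2.comp (θ w.1 h)⟩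
  have hF1 : ∀ w, S w.1 → F w = none := fun w h => dif_pos h
  have hF2 : ∀ w (h : ¬ S w.1), F w = some ⟨t w.1 h, w.2.comp (θ w.1 h)⟩ := fun w h => dif_neg h
  have hFc : ∀ w z, F w = some z → F (GS.conjE w) = some (inv z) := by
    intro w z hz
    by_cases h : S w.1
    · rw [hF1 w h] at hz
      exact absurd hz (by simp)
    · rw [hF2 w h] at hz
      rw [← Option.some.inj hz, hF2 (GS.conjE w) h]
      rfl
  -- common exponents
  let r : Y.X.I → ℕ := fun k => if h : S k then s' k h else s k h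
  have hrpos : ∀ k, 0 < r k := by
    intro k
    by_cases h : S k
    · simp only [r, dif_pos h]
      exact hs' k h
    · simp only [r, dif_neg h]
      exact hs k h
  let P : ℕ := ∏ k, r k
  have hPpos : 0 < P := Finset.prod_pos fun k _ => hrpos k
  have hPdvd : ∀ k, ∃ c, P = r k * c := fun k => Finset.dvd_prod_of_mem r (mem_univ k)
  have hA1 : ∀ w z, F w = some z → BL.eig Y w ^ (P * a) = val z ^ (Y.a * P) := by
    intro w z hz
    have h : ¬ S w.1 := fun h => by
      rw [hF1 w h] at hz
      exact absurd hz (by simp)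
    rw [hF2 w h] at hz
    rw [← Option.some.inj hz]
    obtain ⟨c, hc⟩ := hPdvd w.1
    have hr : r w.1 = s w.1 h := dif_neg h
    have h1 : BL.eig Y w ^ s w.1 h = val ⟨t w.1 h, w.2.comp (θ w.1 h)⟩ ^ m w.1 h := by
      change (w.2 (Y.π w.1)) ^ s w.1 h = (w.2 (θ w.1 h (π (t w.1 h)))) ^ m w.1 h
      rw [← map_pow, ← hθ, ← map_pow, ← map_pow]
    have h2 : P * a = s w.1 h * (c * a) := by rw [hc, hr]; ring
    have h3 : Y.a * P = m w.1 h * (c * a) := by
      have h4 := hexp w.1 h
      calc Y.a * P = (Y.a * s w.1 h) * c := by rw [hc, hr]; ring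
        _ = (a * m w.1 h) * c := by rw [h4]
        _ = m w.1 h * (c * a) := by ring
    rw [h2, pow_mul, h1, ← pow_mul, h3]
  have hA2 : ∀ w, F w = none → BL.eig Y w ^ (2 * P) = ((p : ℂ) ^ Y.a) ^ P := by
    intro w hz
    have h : S w.1 := by
      by_contra h
      rw [hF2 w h] at hz
      exact absurd hz (by simp)
    obtain ⟨c, hc⟩ := hPdvd w.1
    have hr : r w.1 = s' w.1 h := dif_pos h
    have h1 : BL.eig Y w ^ (2 * s' w.1 h) = ((p : ℂ) ^ Y.a) ^ s' w.1 h := by
      change (w.2 (Y.π w.1)) ^ (2 * s' w.1 h) = _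
      rw [← map_pow, hss' w.1 h, map_pow, map_pow, map_natCast]
    have h2 : 2 * P = (2 * s' w.1 h) * c := by rw [hc, hr]; ring
    rw [h2, pow_mul, h1, ← pow_mul, hc, hr]
  -- the exponents
  let E : X → ℕ := fun z => ∑ w, (if F w = some z then e w else 0)
  have hE : ∀ z, E z = E (inv z) := by
    obtain ⟨s₀, hs₀, hrel⟩ := he
    have hw1 : ∀ w : BL.Emb Y, (BL.eig Y w ^ e w) ^ (2 * s₀ * (P * a)) =
        ((p : ℂ) ^ a) ^ (Y.a * P * s₀ * (if F w = none then e w else 0)) *
          ∏ z, val z ^ (2 * (Y.a * P) * s₀ * (if F w = some z then e w else 0)) := by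
      intro w
      rcases hFw : F w with _ | z
      · have h1 : ∀ z : X, val z ^ (2 * (Y.a * P) * s₀ *
            (if (none : Option X) = some z then e w else 0)) = 1 := by
          intro z
          rw [if_neg (by simp), mul_zero, pow_zero]
        rw [Finset.prod_congr rfl fun z _ => h1 z, Finset.prod_const_one, mul_one, if_pos rfl]
        have h2 : e w * (2 * s₀ * (P * a)) = (2 * P) * (a * s₀ * e w) := by ring
        rw [← pow_mul, h2, pow_mul, hA2 w hFw, ← pow_mul, ← pow_mul, ← pow_mul]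
        congr 1
        ring
      · rw [if_neg (by simp), mul_zero, pow_zero, one_mul]
        rw [Finset.prod_eq_single z]
        · rw [if_pos rfl, ← pow_mul]
          have h2 : e w * (2 * s₀ * (P * a)) = (P * a) * (2 * s₀ * e w) := by ring
          rw [h2, pow_mul, hA1 w z hFw, ← pow_mul]
          congr 1
          ring
        · intro z' _ hz'
          rw [if_neg (fun h => hz' (Option.some.inj h).symm), mul_zero, pow_zero]
        · intro h
          exact absurd (mem_univ _) h
    have h1 : ((p : ℂ) ^ a) ^ (Y.a * P * s₀ * (∑ w, if F w = none then e w else 0)) *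
        ∏ z, val z ^ (2 * (Y.a * P) * s₀ * E z) = ((p : ℂ) ^ a) ^ (Y.a * P * s₀ * ∑ w, e w) := by
      have h2 : (∏ w, BL.eig Y w ^ e w) ^ (2 * s₀ * (P * a)) =
          ((p : ℂ) ^ a) ^ (Y.a * P * s₀ * ∑ w, e w) := by
        rw [pow_mul, hrel, ← pow_mul, ← pow_mul, ← pow_mul]
        congr 1
        ring
      rw [← h2, ← Finset.prod_pow, Finset.prod_congr rfl fun w _ => hw1 w,
        Finset.prod_mul_distrib]
      congr 1
      · rw [Finset.prod_pow_eq_pow_sum, Finset.mul_sum]
      · rw [Finset.prod_comm]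
        refine Finset.prod_congr rfl fun z _ => ?_
        rw [Finset.prod_pow_eq_pow_sum, ← Finset.mul_sum]
    have hq0 : ((p : ℂ) ^ a) ≠ 0 := pow_ne_zero _ hp0
    have h3 : ∏ z : X, (z.2 (π z.1)) ^ (((2 * (Y.a * P) * s₀ * E z : ℕ)) : ℤ) =
        ((p ^ a : ℕ) : ℂ) ^ (((Y.a * P * s₀ * ∑ w, e w : ℕ) : ℤ) -
          ((Y.a * P * s₀ * (∑ w, if F w = none then e w else 0) : ℕ) : ℤ)) := by
      have h4 : ((p ^ a : ℕ) : ℂ) = (p : ℂ) ^ a := by push_cast; rfl
      rw [h4, zpow_sub₀ hq0, zpow_natCast, zpow_natCast, ← h1, mul_div_cancel_left₀ _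
        (pow_ne_zero _ hq0)]
      exact Finset.prod_congr rfl fun z _ => by rw [zpow_natCast]
    intro z
    have h4 := hang _ _ h3 z.1 z.2
    have h5 : 2 * (Y.a * P) * s₀ * E z = 2 * (Y.a * P) * s₀ * E (inv z) := by
      exact_mod_cast h4
    exact Nat.eq_of_mul_eq_mul_left (Nat.mul_pos (Nat.mul_pos two_pos (Nat.mul_pos Y.pos hPpos))
      hs₀) h5
  refine GS.mem_of_symm _ F inv hinv ?_ ?_ ?_ ?_ (fun w => (e w : ℤ)) ?_
  · rintro ⟨i, φ⟩ h
    exact conj_ne φ (eq_of_heq (Sigma.mk.inj h).2)
  · intro w hw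
    apply GS.single_mem
    by_contra h
    have h1 := hF2 w h
    rw [hw] at h1
    exact absurd h1 (by simp)
  · intro w w' z hz hz'
    have hsum : ∑ v, (Pi.single w 1 + Pi.single w' 1 : BL.Emb Y → ℕ) v = 2 := by
      simp only [Pi.add_apply, sum_add_distrib, Finset.sum_pi_single', mem_univ, if_true]
    refine AddSubgroup.subset_closure ⟨Pi.single w 1 + Pi.single w' 1, ?_, Or.inl hsum.le,
      fun v => ?_⟩
    · refine ⟨P * a, Nat.mul_pos hPpos ha, ?_⟩
      have h1 : ∏ v, BL.eig Y v ^ (Pi.single w 1 + Pi.single w' 1 : BL.Emb Y → ℕ) v =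
          BL.eig Y w * BL.eig Y w' := by
        simp only [Pi.add_apply, pow_add, Finset.prod_mul_distrib]
        congr 1
        · rw [Finset.prod_eq_single w]
          · rw [Pi.single_eq_same, pow_one]
          · intro v _ hv
            rw [Pi.single_eq_of_ne hv, pow_zero]
          · intro h
            exact absurd (mem_univ _) h
        · rw [Finset.prod_eq_single w']
          · rw [Pi.single_eq_same, pow_one]
          · intro v _ hv
            rw [Pi.single_eq_of_ne hv, pow_zero]
          · intro h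
            exact absurd (mem_univ _) h
      rw [h1, hsum, mul_comm 2 (P * a), pow_mul, mul_pow, hA1 w z hz, hA1 w' (inv z) hz',
        ← mul_pow, hval, ← pow_mul, ← pow_mul, ← pow_mul]
      congr 1
      ring
    · simp only [Pi.add_apply, Nat.cast_add]
      congr 1
      · by_cases hv : v = w
        · subst hv
          simp
        · rw [Pi.single_eq_of_ne hv, Pi.single_eq_of_ne hv]
          simp
      · by_cases hv : v = w'
        · subst hv
          simp
        · rw [Pi.single_eq_of_ne hv, Pi.single_eq_of_ne hv]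
          simp
  · intro w z hz
    exact ⟨GS.conjE w, hFc w z hz⟩
  · intro z
    have h1 := hE z
    have h2 : ((∑ w, (if F w = some z then e w else 0) : ℕ) : ℤ) =
        ((∑ w, (if F w = some (inv z) then e w else 0) : ℕ) : ℤ) := by
      exact_mod_cast h1
    push_cast at h2
    exact h2

end Pool.Agent.H395
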