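import Mathlib
import Pool.Agent.H395.CritDefs
import Pool.Graph.R_seed8.TH127.SC.Single

/-!
# Criteria for local types
-/

set_option autoImplicit false
set_option linter.unusedSectionVars false
set_option linter.unusedVariables false

namespace Pool.Agent.H395

open NumberField Module Pool.Agent.W527 Pool.Agent.H204R3.CM Pool.Agent.H977R3.WN
  Pool.Agent.H485R3.Exact Pool.Agent.TH127.SC

noncomputable section

section dev

variable {p : ℕ} [hp : Fact p.Prime] {I : Type} {K : I → Type} [∀ i, Field (K i)]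
  [∀ i, NumberField (K i)] [∀ i, IsCMField (K i)] {m : I → ℕ} {π : ∀ i, K i}

/-- The deviations are rational numbers. -/
theorem exists_deviation (hweil : ∀ i, ∀ φ : K i →+* ℂ, ‖φ (π i)‖ ^ 2 = (p : ℝ) ^ m i)
    (ν : PadicAlgCl p ≃+* ℂ) : ∃ q : Embs K → ℚ, IsDeviation p m π ν q := by
  choose κ u hκ hu using fun i => exists_slopes_pos (p := p) (ne_zero_of_weil (hweil i)) (m i)
  refine ⟨fun z => κ z.1 * u z.1 ((ν.symm : ℂ →+* PadicAlgCl p).comp z.2), fun z => ?_⟩
  have h1 := hu z.1 ((ν.symm : ℂ →+* PadicAlgCl p).comp z.2)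
  push_cast
  rw [← h1]
  rfl

end dev

section single

variable {p : ℕ} [hp : Fact p.Prime] {m : ℕ} {E : Type} [Field E] [NumberField E] [IsCMField E]
  {π : E}

/-- An embedding as an element of the family with one field. -/
def em (φ : E →+* ℂ) : Embs (fun _ : Unit => E) := ⟨(), φ⟩

theorem em_surj (x : Embs (fun _ : Unit => E)) : ∃ φ, x = em φ := ⟨x.2, rfl⟩

theorem em_inj {φ χ : E →+* ℂ} (h : em φ = em χ) : φ = χ := eq_of_heq (Sigma.mk.inj h).2

theorem smul_em (g : ℂ ≃+* ℂ) (φ : E →+* ℂ) : g • em φ = em ((g : ℂ →+* ℂ).comp φ) := rfl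

theorem bar_em (φ : E →+* ℂ) : bar (em φ) = em (ComplexEmbedding.conjugate φ) := rfl

theorem deviation_eq (ν : PadicAlgCl p ≃+* ℂ) (φ : E →+* ℂ) :
    deviation (K := fun _ : Unit => E) p (fun _ => m) (fun _ => π) ν ⟨(), φ⟩ =
      2 * slope p ν π φ - m := rfl

theorem conj_ne_of_nonReal {F : IntermediateField ℚ E} (hF : ¬ IsTotallyReal F) (ψ : F →+* ℂ) :
    ComplexEmbedding.conjugate ψ ≠ ψ := by
  intro h1
  obtain ⟨y, hy, hne⟩ := (nonReal_iff F).2 hF
  obtain ⟨φ, hφ⟩ := exists_ext F ψ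
  apply hne
  apply φ.injective
  rw [← complex_conj_apply]
  have h2 := RingHom.congr_fun h1 ⟨y, hy⟩
  have h3 : φ y = ψ ⟨y, hy⟩ := RingHom.congr_fun hφ ⟨y, hy⟩
  rw [h3]
  exact h2

theorem mem_agreeing {F : IntermediateField ℚ E} {φ₀ : E →+* ℂ} {φ : E →+* ℂ} :
    φ ∈ agreeing F φ₀ ↔ φ.comp (algebraMap F E) = φ₀.comp (algebraMap F E) := by
  classical
  rw [agreeing, Finset.mem_filter]
  constructor
  · rintro ⟨_, h⟩
    exact RingHom.ext fun x => h x x.2
  · intro h
    exact ⟨Finset.mem_univ _, fun x hx => RingHom.congr_fun h ⟨x, hx⟩⟩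

theorem card_agreeing (F : IntermediateField ℚ E) (φ₀ : E →+* ℂ) :
    (agreeing F φ₀).card = finrank F E := by
  classical
  let _ : Algebra F ℂ := (φ₀.comp (algebraMap F E)).toAlgebra
  rw [← AlgHom.card F E ℂ]
  let e : (E →ₐ[F] ℂ) ≃ {φ : E →+* ℂ // φ ∈ agreeing F φ₀} :=
    { toFun := fun e => ⟨(e : E →+* ℂ), mem_agreeing.2 (RingHom.ext fun x => e.commutes x)⟩
      invFun := fun φ => { φ.1 with
        commutes' := fun x => RingHom.congr_fun (mem_agreeing.1 φ.2) x }
      left_inv := fun e => by ext x; rfl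
      right_inv := fun φ => by ext x; rfl }
  rw [Fintype.card_congr e, Fintype.card_coe]

/-- A quadratic field has two embeddings. -/
theorem res_eq_or {F : IntermediateField ℚ E} (h2 : finrank ℚ F = 2) (hF : ¬ IsTotallyReal F)
    (ψ χ : F →+* ℂ) : χ = ψ ∨ χ = ComplexEmbedding.conjugate ψ := by
  classical
  by_contra hcon
  push Not at hcon
  have h3 : ({χ, ψ, ComplexEmbedding.conjugate ψ} : Finset (F →+* ℂ)).card = 3 := by
    rw [Finset.card_insert_of_notMem, Finset.card_insert_of_notMem, Finset.card_singleton]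
    · rw [Finset.mem_singleton]
      exact (conj_ne_of_nonReal hF ψ).symm
    · rw [Finset.mem_insert, Finset.mem_singleton]
      push Not
      exact hcon
  have h4 := Finset.card_le_univ ({χ, ψ, ComplexEmbedding.conjugate ψ} : Finset (F →+* ℂ))
  rw [h3, Embeddings.card F ℂ, h2] at h4
  omega

theorem conj_comp (F : IntermediateField ℚ E) (φ : E →+* ℂ) :
    (ComplexEmbedding.conjugate φ).comp (algebraMap F E) =
      ComplexEmbedding.conjugate (φ.comp (algebraMap F E)) := rfl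

/-- The embeddings of a field which contains an imaginary quadratic field form one class. -/
theorem sameClass_of_quadratic {F : IntermediateField ℚ E} (h2 : finrank ℚ F = 2)
    (hF : ¬ IsTotallyReal F) (x y : Embs (fun _ : Unit => E)) : SameClass x y := by
  obtain ⟨_, φ⟩ := x
  let ψ : F →+* ℂ := φ.comp (algebraMap F E)
  have key : ∀ z w : E →+* ℂ, z.comp (algebraMap F E) = ψ → w.comp (algebraMap F E) = ψ →
      SameClass (em z) (em w) := by
    intro z w hz hw
    refine Relation.EqvGen.rel _ _ ?_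
    have hn := conj_ne_of_nonReal hF ψ
    have hres : ∀ (g : ℂ ≃+* ℂ) (a b : E →+* ℂ),
        g • em a = em b →
        (g : ℂ →+* ℂ).comp (a.comp (algebraMap F E)) = b.comp (algebraMap F E) := by
      intro g a b h
      have h1 : (g : ℂ →+* ℂ).comp a = b := em_inj h
      rw [← h1]
      rfl
    rintro ⟨g, ⟨h3, h4⟩ | ⟨h3, h4⟩ | ⟨h3, h4⟩⟩
    · have h5 := hres g _ _ h3
      have h6 := hres g w (ComplexEmbedding.conjugate w) h4
      rw [conj_comp] at h6
      rw [hz] at h5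
      rw [hw, h5] at h6
      exact hn h6.symm
    · have h5 := hres g z (ComplexEmbedding.conjugate z) h3
      have h6 := hres g _ _ h4
      rw [conj_comp] at h5
      rw [hz] at h5
      rw [hw, h5] at h6
      exact hn h6
    · have h5 := hres g _ _ h3
      have h6 := hres g w (ComplexEmbedding.conjugate z) h4
      rw [conj_comp] at h6
      rw [hz, hw] at h5
      rw [hw, hz, h5] at h6
      exact hn h6.symm
  have key2 : ∀ w : E →+* ℂ, SameClass (em φ) (em w) := by
    intro w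
    rcases res_eq_or h2 hF ψ (w.comp (algebraMap F E)) with h | h
    · exact key φ w rfl h
    · have h3 : (ComplexEmbedding.conjugate w).comp (algebraMap F E) = ψ := by
        rw [conj_comp, h]
        exact RingHom.ext fun x => by simp [ComplexEmbedding.conjugate]
      have h4 := key φ (ComplexEmbedding.conjugate w) rfl h3
      have h5 : SameClass (em w) (em (ComplexEmbedding.conjugate w)) :=
        link_cb bar_bar bar_ne_top smul_bar _
      exact link_trans h4 (link_symm h5)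
  obtain ⟨_, w⟩ := y
  exact key2 w

/-- The first criterion. -/
theorem unitary_of_quadratic (hweil : ∀ φ : E →+* ℂ, ‖φ π‖ ^ 2 = (p : ℝ) ^ m)
    (F : IntermediateField ℚ E) {r k : ℕ} (hr : r.Prime) (hI : IsImaginaryQuadratic F (r ^ k))
    (ν : PadicAlgCl p ≃+* ℂ) (φ₀ : E →+* ℂ)
    {α β : ℚ} {n : (E →+* ℂ) → ℤ} (hα : α ≠ 0)
    (hlin : ∀ φ ∈ agreeing F φ₀, slope p ν π φ = α * n φ + β)
    (hsum : ∑ φ ∈ agreeing F φ₀, slope p ν π φ ≠ (m * r ^ k : ℝ) / 2)
    (hnd : ¬ (r : ℤ) ∣ ∑ φ ∈ agreeing F φ₀, n φ) (x : Embs (fun _ : Unit => E)) :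
    UnitaryType (K := fun _ : Unit => E) p (fun _ => m) (fun _ => π) x := by
  classical
  obtain ⟨h2, hF, hdeg⟩ := hI
  obtain ⟨q, hq⟩ := exists_deviation (K := fun _ : Unit => E) (m := fun _ => m)
    (π := fun _ => π) (fun _ => hweil) ν
  let ψ : F →+* ℂ := φ₀.comp (algebraMap F E)
  let emb : (E →+* ℂ) ↪ Embs (fun _ : Unit => E) :=
    ⟨fun φ => ⟨(), φ⟩, fun a b h => eq_of_heq (Sigma.mk.inj h).2⟩
  have hmem : ∀ φ : E →+* ℂ, emb φ ∈ (agreeing F φ₀).map emb ↔
      φ.comp (algebraMap F E) = ψ := by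
    intro φ
    rw [Finset.mem_map' emb, mem_agreeing]
  have hn := conj_ne_of_nonReal hF ψ
  refine ⟨ν, q, hq, fun z _ => embs_transitive x z, r, k, (agreeing F φ₀).map emb, 2 * α,
    2 * β - m, fun z => n z.2, hr, ?_, ?_, ?_, ?_, ?_, ?_, ?_, ?_⟩
  · rw [Finset.card_map, card_agreeing, hdeg]
  · rintro ⟨_, φ⟩
    refine ⟨fun _ => ?_, fun _ => sameClass_of_quadratic h2 hF _ _⟩
    change emb φ ∈ _ ∨ emb (ComplexEmbedding.conjugate φ) ∈ _
    rw [hmem, hmem, conj_comp]
    rcases res_eq_or h2 hF ψ (φ.comp (algebraMap F E)) with h | h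
    · exact Or.inl h
    · right
      rw [h]
      exact RingHom.ext fun x => by simp [ComplexEmbedding.conjugate]
  · rintro ⟨_, φ⟩ hz hz'
    change emb φ ∈ _ at hz
    change emb (ComplexEmbedding.conjugate φ) ∈ _ at hz'
    rw [hmem] at hz hz'
    rw [conj_comp, hz] at hz'
    exact hn hz'
  · rintro g ⟨_, φ⟩ hz hgz ⟨_, χ⟩ hw
    change emb φ ∈ _ at hz
    change emb χ ∈ _ at hw
    change emb ((g : ℂ →+* ℂ).comp φ) ∈ _ at hgz
    change emb ((g : ℂ →+* ℂ).comp χ) ∈ _
    rw [hmem] at hz hw hgz ⊢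
    rw [RingHom.comp_assoc, hz] at hgz
    rw [RingHom.comp_assoc, hw, hgz]
  · rintro ⟨_, φ⟩ hz
    change emb φ ∈ _ at hz
    have h3 := hlin φ (mem_agreeing.2 ((hmem φ).1 hz))
    have h4 := hq ⟨(), φ⟩
    rw [deviation_eq, h3] at h4
    have h5 : (q ⟨(), φ⟩ : ℝ) = ((2 * α * n φ + (2 * β - m) : ℚ) : ℝ) := by
      rw [h4]
      push_cast
      ring
    exact_mod_cast h5
  · exact mul_ne_zero two_ne_zero hα
  · rw [Finset.sum_map]
    intro h0
    apply hsum
    have h3 : ((∑ φ ∈ agreeing F φ₀, q (emb φ) : ℚ) : ℝ) =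
        2 * ∑ φ ∈ agreeing F φ₀, slope p ν π φ - m * r ^ k := by
      push_cast
      have h4 : ∀ φ ∈ agreeing F φ₀, (q (emb φ) : ℝ) = 2 * slope p ν π φ - m :=
        fun φ _ => hq ⟨(), φ⟩
      rw [Finset.sum_congr rfl h4, Finset.sum_sub_distrib, ← Finset.mul_sum, Finset.sum_const,
        card_agreeing, hdeg, nsmul_eq_mul]
      push_cast
      ring
    rw [h0] at h3
    push_cast at h3
    linarith
  · rw [Finset.sum_map]
    exact hnd

/-- The second criterion. -/
theorem unitary_of_ordinary (hweil : ∀ φ : E →+* ℂ, ‖φ π‖ ^ 2 = (p : ℝ) ^ m) (hm : 0 < m)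
    (F : IntermediateField ℚ E) {r k : ℕ} (hr : r.Prime) (hI : IsImaginaryQuadratic F (r ^ k))
    (ν : PadicAlgCl p ≃+* ℂ) (φ₀ : E →+* ℂ)
    (hord : ∀ φ, slope p ν π φ = 0 ∨ slope p ν π φ = m)
    (hrs : ¬ r ∣ {φ ∈ (agreeing F φ₀ : Set (E →+* ℂ)) | slope p ν π φ = 0}.ncard)
    (h2s : 2 * {φ ∈ (agreeing F φ₀ : Set (E →+* ℂ)) | slope p ν π φ = 0}.ncard ≠ r ^ k)
    (x : Embs (fun _ : Unit => E)) :
    UnitaryType (K := fun _ : Unit => E) p (fun _ => m) (fun _ => π) x := by
  classical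
  obtain ⟨s, hs⟩ : ∃ s, {φ ∈ (agreeing F φ₀ : Set (E →+* ℂ)) | slope p ν π φ = 0}.ncard = s :=
    ⟨_, rfl⟩
  rw [hs] at hrs h2s
  have hm0 : (m : ℝ) ≠ 0 := by exact_mod_cast hm.ne'
  have hcount : ((agreeing F φ₀).filter fun φ => slope p ν π φ = 0).card = s := by
    rw [← hs, ← Set.ncard_coe_finset]
    congr 1
    ext φ
    simp
  have hsl : ∀ φ ∈ agreeing F φ₀, slope p ν π φ =
      m - m * (if slope p ν π φ = 0 then 1 else 0) := by
    intro φ _
    rcases hord φ with h | h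
    · rw [if_pos h, h]
      ring
    · rw [if_neg (by rw [h]; exact hm0), h]
      ring
  have hsumn : ∑ φ ∈ agreeing F φ₀, (if slope p ν π φ = 0 then (1 : ℤ) else 0) = s := by
    rw [← hcount, Finset.card_filter]
    push_cast
    rfl
  refine unitary_of_quadratic hweil F hr hI ν φ₀ (α := -m) (β := m)
    (n := fun φ => if slope p ν π φ = 0 then 1 else 0) ?_ ?_ ?_ ?_ x
  · exact neg_ne_zero.2 (by exact_mod_cast hm.ne')
  · intro φ hφ
    conv_lhs => rw [hsl φ hφ]
    push_cast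
    ring
  · rw [Finset.sum_congr rfl hsl, Finset.sum_sub_distrib, ← Finset.mul_sum, Finset.sum_const,
      card_agreeing, hI.2.2, nsmul_eq_mul]
    have h3 : (∑ φ ∈ agreeing F φ₀, (if slope p ν π φ = 0 then (1 : ℝ) else 0)) = s := by
      have h4 := congrArg (fun z : ℤ => (z : ℝ)) hsumn
      push_cast at h4
      exact h4
    rw [h3]
    intro h
    apply h2s
    push_cast at h
    have h5 : (m : ℝ) * (2 * s) = m * r ^ k := by linarith
    exact_mod_cast mul_left_cancel₀ hm0 h5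
  · rw [hsumn]
    exact_mod_cast hrs

/-- The third criterion. -/
theorem dominated_of_sum (hweil : ∀ φ : E →+* ℂ, ‖φ π‖ ^ 2 = (p : ℝ) ^ m)
    (ν : PadicAlgCl p ≃+* ℂ) (ψ : E →+* ℂ)
    (h : (∑ φ : E →+* ℂ, |slope p ν π φ - (m : ℝ) / 2|) < 4 * |slope p ν π ψ - (m : ℝ) / 2|)
    (x : Embs (fun _ : Unit => E)) :
    DominatedType (K := fun _ : Unit => E) p (fun _ => m) (fun _ => π) x := by
  classical
  obtain ⟨q, hq⟩ := exists_deviation (K := fun _ : Unit => E) (m := fun _ => m)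
    (π := fun _ => π) (fun _ => hweil) ν
  refine ⟨ν, q, fun _ => 1, hq, fun _ => one_pos, Or.inl fun y _ => ⟨em ψ, rfl, ?_⟩⟩
  have hqa : ∀ φ : E →+* ℂ, |(q (em φ) : ℝ)| = 2 * |slope p ν π φ - (m : ℝ) / 2| := by
    intro φ
    have h4 : (q (em φ) : ℝ) = 2 * slope p ν π φ - m := hq (em φ)
    rw [h4]
    have h3 : 2 * slope p ν π φ - m = 2 * (slope p ν π φ - (m : ℝ) / 2) := by ring
    rw [h3, abs_mul, abs_two]
  have hconj : ∀ φ : E →+* ℂ, q (em (ComplexEmbedding.conjugate φ)) = - q (em φ) := by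
    intro φ
    have h3 : (q (em φ) : ℝ) = 2 * slope p ν π φ - m := hq (em φ)
    have h4 : (q (em (ComplexEmbedding.conjugate φ)) : ℝ) =
        2 * slope p ν π (ComplexEmbedding.conjugate φ) - m := hq (em _)
    have h5 : (q (em (ComplexEmbedding.conjugate φ)) : ℝ) = - q (em φ) := by
      rw [h3, h4]
      have h6 : φ π * (ComplexEmbedding.conjugate φ) π = (p : ℂ) ^ m := by
        have h7 := hweil φ
        rw [ComplexEmbedding.conjugate_coe_eq, Complex.mul_conj, Complex.normSq_eq_norm_sq, h7]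
        push_cast
        rfl
      have h8 := congrArg (fun z => ‖ν.symm z‖) h6
      simp only [map_mul, map_pow, map_natCast, norm_mul, norm_pow] at h8
      have hp1 : (1 : ℝ) < p := by exact_mod_cast hp.out.one_lt
      have h9 : ‖((p : ℕ) : PadicAlgCl p)‖ = (p : ℝ)⁻¹ := by
        have h10 : ((p : ℕ) : PadicAlgCl p) = algebraMap ℚ_[p] (PadicAlgCl p) ((p : ℕ) : ℚ_[p]) := by
          simp
        rw [h10, PadicAlgCl.norm_extends, Padic.norm_p]
      rw [h9] at h8
      have h11 := congrArg (Real.logb p) h8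
      have hne : ∀ χ : E →+* ℂ, ‖ν.symm (χ π)‖ ≠ 0 := fun χ => by
        rw [norm_ne_zero_iff, Ne, EmbeddingLike.map_eq_zero_iff,
          map_eq_zero]
        exact ne_zero_of_weil hweil
      rw [Real.logb_mul (hne _) (hne _), Real.logb_pow, Real.logb_inv,
        Real.logb_self_eq_one hp1] at h11
      unfold slope
      linarith
    exact_mod_cast h5
  -- the sum over all embeddings
  have hall : ∑ w : Embs (fun _ : Unit => E), |q w| = ∑ φ : E →+* ℂ, |q (em φ)| := by
    refine Fintype.sum_equiv (Equiv.uniqueSigma (fun _ : Unit => (E →+* ℂ))) _ _ fun w => rfl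
  have hlt : ∑ w : Embs (fun _ : Unit => E), |q w| < 4 * |q (em ψ)| := by
    rw [hall]
    have h3 : ((∑ φ : E →+* ℂ, |q (em φ)| : ℚ) : ℝ) < ((4 * |q (em ψ)| : ℚ) : ℝ) := by
      push_cast
      simp only [hqa]
      rw [← Finset.mul_sum]
      linarith
    exact_mod_cast h3
  simp only [one_mul]
  have hle : ∑ w with (SameClass (em ψ) w ∧ w ≠ em ψ ∧ w ≠ bar (em ψ)), |q w| ≤
      ∑ w ∈ (Finset.univ.erase (em ψ)).erase (bar (em ψ)), |q w| := by
    apply Finset.sum_le_sum_of_subset_of_nonneg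
    · intro w hw
      rw [Finset.mem_filter] at hw
      rw [Finset.mem_erase, Finset.mem_erase]
      exact ⟨hw.2.2.2, hw.2.2.1, Finset.mem_univ _⟩
    · intro w _ _
      exact abs_nonneg _
  have h5 : bar (em ψ) ∈ Finset.univ.erase (em ψ) :=
    Finset.mem_erase.2 ⟨bar_ne_top _, Finset.mem_univ _⟩
  have h6 := Finset.add_sum_erase _ (fun w : Embs (fun _ : Unit => E) => |q w|) h5
  have h7 := Finset.add_sum_erase Finset.univ (fun w : Embs (fun _ : Unit => E) => |q w|)
    (Finset.mem_univ (em ψ))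
  have h8 : |q (bar (em ψ))| = |q (em ψ)| := by
    rw [bar_em, hconj, abs_neg]
  rw [h8] at h6
  linarith

theorem singleFieldCriteria_hold : SingleFieldCriteria := by
  intro p _ m E _ _ _ π hweil hgen
  have hpow : PowersGenerate (K := fun _ : Unit => E) (fun _ => π) := fun _ => hgen
  obtain ⟨φ₁⟩ : Nonempty (E →+* ℂ) := inferInstance
  refine ⟨fun F r k hr hI ν φ₀ α β n hα hlin hsum hnd => ⟨hpow, fun _ => ⟨φ₁,
    Or.inr (Or.inr (Or.inl (unitary_of_quadratic hweil F hr hI ν φ₀ hα hlin hsum hnd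
      _)))⟩⟩, fun hm F r k hr hI ν φ₀ hord hrs h2s => ⟨hpow, fun _ => ⟨φ₁, Or.inr (Or.inr (Or.inl
      (unitary_of_ordinary hweil hm F hr hI ν φ₀ hord hrs h2s _)))⟩⟩,
    fun ν ψ h => ⟨hpow, fun _ => ⟨φ₁, Or.inr (Or.inr (Or.inr (Or.inl
      (dominated_of_sum hweil ν ψ h _))))⟩⟩⟩

end single

end

end Pool.Agent.H395
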