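import Mathlib
import Pool.Graph.R_pool_sql_team_seeded_3997aac3.Q29.HT.Defs
import Pool.Graph.R_pool_sql_team_seeded_3997aac3.Q29.NH.Defs
import Pool.Graph.R_pool_sql_team_seeded_1acbe0a2.Y156.P.AbsDefs

/-!
# The standard conjecture of Hodge type and numerical equivalence for the varieties which specialize
to abelian varieties with given Weil numbers: definitions
-/

set_option autoImplicit false

namespace Pool.Agent.H395

open Pool.Agent.TH170 Pool.Agent.H204R3.CM Pool.Agent.W547.KB Pool.Agent.W547.HR
  Pool.Agent.W495.TA Pool.Agent.TH117.PO Pool.Agent.Y137.HD Module Pool.Agent.Q29.HT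
  Pool.Agent.Y156.P

/-- The standard conjecture of Hodge type for all abelian varieties `Y` over an algebraic closure of
the field with `p` elements which are isogenous to products of powers of the abelian varieties with
the Weil numbers `π i` and of supersingular ones (`OfNumbers`), and for **all** varieties over
arbitrary fields of characteristic `p` which specialize to them: here `A` is the ring of algebraic
cycles modulo homological equivalence on such a variety, of dimension `n`, with the ample divisor `D`
which specializes to the polarization given by `α`. The spaces `C Y κ` of the rational classes of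
algebraic cycles on the varieties `Y` have the properties in `IsCycleSystem`, `IsRosatiPositive` and
`AreTate`, all of which are known theorems. -/
def PositiveForNumbers {p : ℕ} [Fact p.Prime] (ν : PadicAlgCl p ≃+* ℂ) {I : Type} {K : I → Type}
    [∀ i, Field (K i)] (π : ∀ i, K i) : Prop :=
  ∀ (Ω : Type) [Field Ω] [CharZero Ω] [IsAlgClosed Ω]
    (C : (Y : RedAV p ν) → (κ : Type) → ((TM Ω Y) [⋀^κ]→ₗ[Ω] Ω) → Prop), IsCycleSystem Ω C →
    IsRosatiPositive Ω C → AreTate Ω C → ∀ Y : RedAV p ν, OfNumbers π Y →
      ∀ α : Y.X.H1, IsPolar Y.X α →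
        (∀ r m : ℕ, 2 * (2 * r + m) = finrank ℚ Y.X.H1 →
          ∀ z : (TM Ω Y) [⋀^Fin r × Fin 2]→ₗ[Ω] Ω, C Y (Fin r × Fin 2) z → z ≠ 0 →
            IsPrim α m z → IsPosClass α m z) ∧
        ∀ (A : Type) [CommRing A] [Algebra ℚ A] (n : ℕ) (gr : ℕ → Submodule ℚ A)
          (deg : A →ₗ[ℚ] ℚ) (D : A) (sp : ∀ r : ℕ, A → Form Ω Y r),
          Specializes C n gr D Y α sp → IsCycleRing n gr deg D → HodgePositive n gr deg D

/-- Numerical and homological equivalence coincide on **all** varieties `X` over arbitrary fields of
characteristic `p` which specialize to abelian varieties `Y` over an algebraic closure of the field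
with `p` elements with the Weil numbers `π i` (`OfNumbers`) and satisfy the conjecture `A` of
Lefschetz type (`LefschetzA`; a theorem for abelian varieties): here `A` is the ring of algebraic
cycles modulo `ℓ`-adic homological equivalence on `X`, of dimension `n`, with the ample divisor `D`
which specializes to the polarization of `Y` given by `α`. The spaces `C Y κ` of the rational classes
of algebraic cycles on the varieties `Y` have the properties in `IsCycleSystem`, `IsRosatiPositive`
and `AreTate`, all of which are known theorems. -/
def NumEqHomForNumbers {p : ℕ} [Fact p.Prime] (ν : PadicAlgCl p ≃+* ℂ) {I : Type} {K : I → Type}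
    [∀ i, Field (K i)] (π : ∀ i, K i) : Prop :=
  ∀ (Ω : Type) [Field Ω] [CharZero Ω] [IsAlgClosed Ω]
    (C : (Y : RedAV p ν) → (κ : Type) → ((TM Ω Y) [⋀^κ]→ₗ[Ω] Ω) → Prop), IsCycleSystem Ω C →
    IsRosatiPositive Ω C → AreTate Ω C → ∀ Y : RedAV p ν, OfNumbers π Y →
      ∀ α : Y.X.H1, IsPolar Y.X α →
        ∀ (A : Type) [CommRing A] [Algebra ℚ A] (n : ℕ) (gr : ℕ → Submodule ℚ A)
          (deg : A →ₗ[ℚ] ℚ) (D : A) (sp : ∀ r : ℕ, A → Form Ω Y r),
          Specializes C n gr D Y α sp → IsCycleRing n gr deg D → LefschetzA n gr D →
            NumEqHom n gr deg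

end Pool.Agent.H395
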