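import Mathlib
import Pool.Agent.H395.AbsDefs
import Pool.Agent.H395.Elem
import Pool.Graph.R_pool_sql_team_seeded_1acbe0a2.Y156.P.Abs
import Pool.Graph.R_pool_sql_team_seeded_3997aac3.Q29.HT.Spec
import Pool.Graph.R_pool_sql_team_seeded_3997aac3.Q29.NH.Main

/-!
# Abelian varieties over finite fields with Weil numbers of maximal angle rank: algebraic cycles
-/

set_option autoImplicit false
set_option linter.unusedSectionVars false
set_option linter.unusedVariables false

namespace Pool.Agent.H395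

open NumberField Module Polynomial Pool.Agent.TH170.MF Pool.Agent.H204R3.CM Pool.Agent.H977R3.CM
  Pool.Agent.TH170 Pool.Agent.TH170.CM Pool.Agent.TH170.FW Pool.Agent.Y156.P
  Pool.Agent.W495.TA Pool.Agent.W495.FM Pool.Agent.TH117 Pool.Agent.TH117.GN
  Pool.Agent.Q29.HT Pool.Agent.Q29.NH Pool.Agent.Y137.HD Pool.Agent.Y137.MV

variable {p : ℕ} [hp : Fact p.Prime] {ν : PadicAlgCl p ≃+* ℂ} {a : ℕ} {I : Type} [Fintype I]
  {K : I → Type} [∀ i, Field (K i)] [∀ i, NumberField (K i)] [∀ i, IsCMField (K i)]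

theorem powers_self (Y : RedAV p ν) : BL.IsPowersTimesSupersingular Y Y := fun k => Or.inr
  ⟨k, RingHom.id _, 1, 1, one_pos, one_pos, rfl, rfl⟩

theorem positive_of_angle (ha : 0 < a) {π : ∀ i, K i}
    (hw : ∀ i, π i * IsCMField.complexConj (K i) (π i) = (p : K i) ^ a)
    (hang : MaximalAngleRank (p ^ a) π) : PositiveForNumbers ν π := by
  intro Ω _ _ _ C hC hR hT Y hY α hα
  have hpos : ∀ r m : ℕ, 2 * (2 * r + m) = finrank ℚ Y.X.H1 →
      ∀ z : (TM Ω Y) [⋀^Fin r × Fin 2]→ₗ[Ω] Ω, C Y (Fin r × Fin 2) z → z ≠ 0 →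
        Pool.Agent.TH117.PO.IsPrim α m z → Pool.Agent.TH117.PO.IsPosClass α m z :=
    fun r m hrm z hz hz0 hprim =>
      Pool.Agent.TH117.PO.positive_full hC hR hT
        (Or.inr ⟨Y, elementary_of_angle ha hw hang hY, powers_self Y⟩) hα hrm hz hz0 hprim
  exact ⟨hpos, fun A _ _ n gr deg D sp hS hR => hodgePositive_of hS hR hpos⟩

theorem numEqHom_of_angle (ha : 0 < a) {π : ∀ i, K i}
    (hw : ∀ i, π i * IsCMField.complexConj (K i) (π i) = (p : K i) ^ a)
    (hang : MaximalAngleRank (p ^ a) π) : NumEqHomForNumbers ν π := by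
  intro Ω _ _ _ C hC hR hT Y hY α hα A _ _ n gr deg D sp hS hring hA
  refine numEqHom hring hA fun j m hjm z hz hp h0 => ?_
  by_contra hz0
  have h1 := (positive_of_angle ha hw hang Ω C hC hR hT Y hY α hα).2 A n gr deg D sp hS hring j m
    hjm z hz hp hz0
  rw [h0, map_zero, mul_zero] at h1
  exact lt_irrefl _ h1

/-- Tate classes on the abelian varieties with the given Weil numbers are algebraic. -/
theorem tate_of_angle (ha : 0 < a) {π : ∀ i, K i}
    (hw : ∀ i, π i * IsCMField.complexConj (K i) (π i) = (p : K i) ^ a)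
    (hang : MaximalAngleRank (p ^ a) π) (Ω : Type) [Field Ω] [CharZero Ω] [IsAlgClosed Ω]
    (Y : RedAV p ν) (hY : OfNumbers π Y) (s m : ℕ) (f : (TM Ω Y) [⋀^Fin (2 * m)]→ₗ[Ω] Ω)
    (hs : 0 < s) (hf : IsTateClass Ω Y s m f) : Alg Ω Y (Fin (2 * m)) f :=
  TH117.BL.elementary Y (elementary_of_angle ha hw hang hY) Ω Y (powers_self Y) s m hs f hf

/-- The conjecture `TB` for all `X` whose homology is generated by abelian varieties with the given
Weil numbers. -/
theorem tb_of_angle (ha : 0 < a) {π : ∀ i, K i}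
    (hw : ∀ i, π i * IsCMField.complexConj (K i) (π i) = (p : K i) ^ a)
    (hang : MaximalAngleRank (p ^ a) π) {Ω V : Type} [Field Ω] [IsAlgClosed Ω] [CharZero Ω]
    {T : Homology Ω V} (hT : IsHomology T) {X : V}
    (hX : Generated T (IsAbelianOfNumbers ν π T) X) : TB T X := by
  refine tb_generated hT (fun X hX => ?_) hX
  obtain ⟨Y, C, D, g, h1, hC, hD, hX⟩ := hX
  exact tb_abelian hT hC (tateHolds_elem (elementary_of_angle ha hw hang h1) (powers_self Y) hC) hD
    hX

end Pool.Agent.H395
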