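import Mathlib
import Pool.Agent.H395.Free
import Pool.Graph.R_seed8.TH127.SC.Char0

/-!
# One Frobenius element whose Weil numbers have classes of local type
-/

set_option autoImplicit false
set_option linter.unusedSectionVars false
set_option linter.unusedVariables false

namespace Pool.Agent.H395

open NumberField Module Pool.Agent.W527 Pool.Agent.H204R3.CM Pool.Agent.H977R3.WN
  Pool.Agent.H485R3.Exact Pool.Agent.H204R3.GP Pool.Agent.H204R3.SP Pool.Agent.TH127.SC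
  IntermediateField

noncomputable section

section tate

variable {k : Type} [Field k] [CharZero k] {V : Type} [AddCommGroup V]
    [Module k V] [FiniteDimensional k V]
    {p : ℕ} [Fact p.Prime] {a : ℕ} (ha : 0 < a)
    {ι : Type} [Fintype ι] {F : ι → Type} [∀ i, Field (F i)] [∀ i, NumberField (F i)]
    [∀ i, IsCMField (F i)] {π : ∀ i, F i} (hint : ∀ i, IsIntegral ℤ (π i))
    (hw : ∀ i, π i * IsCMField.complexConj (F i) (π i) = (p : F i) ^ a)
    (hloc : LocalTypes p (fun _ => a) π)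

include hloc in
theorem gen_of_local (i : ι) : ℚ⟮π i⟯ = ⊤ := by
  have h := hloc.1 i 1 one_pos
  rwa [pow_one] at h

include ha hint hw hloc in
theorem tate_of_local {Γ : Type} [Group Γ] (ρ : Representation k Γ V) (χ : Γ →* k)
    (ω : V →ₗ[k] V →ₗ[k] k) (halt : ∀ v, ω v v = 0) (hnd : ∀ u, (∀ v, ω v u = 0) → u = 0)
    (hωρ : ∀ s u v, ω (ρ s u) (ρ s v) = χ s * ω u v)
    (hss : FiniteIndexSemisimple ρ)
    (γ : Γ) (hχ : χ γ = (p : k) ^ a)
    (hγ : (ρ γ).charpoly = ∏ i, (minpoly ℚ (π i)).map (algebraMap ℚ k))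
    {m : ℕ} (φ : MultilinearMap k (fun _ : Fin m × Fin 2 => V) k) (hφ : IsTate ρ χ m φ) :
    φ ∈ Submodule.span k (PT ρ χ m) := by
  have hss' : ∀ Δ : Subgroup Γ, Δ.FiniteIndex → SemiUnder (ρ '' (Δ : Set Γ)) := by
    intro Δ hΔ U hU
    obtain ⟨U', h1, h2⟩ := hss Δ hΔ U (fun s hs u hu => hU _ ⟨s, hs, rfl⟩ u hu)
    refine ⟨U', ?_, h2⟩
    rintro _ ⟨s, hs, rfl⟩ u hu
    exact h1 s hs u hu
  have hweil : ∀ i, ∀ φ : F i →+* ℂ, ‖φ (π i)‖ ^ 2 = (p : ℝ) ^ a := weil_of_mul hw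
  have hπ : ∀ i, π i ≠ 0 := fun i => ne_zero_of_weil (p := p) (m := a) (hweil i)
  choose D u hD hslopes hu using fun i => exists_hasSlopes (p := p) ha (hπ i)
  refine tate_of_free ha (gen_of_local hloc) hw (N := fun i => a * D i)
    (fun i => Nat.mul_pos ha (hD i)) (u := u)
    hslopes ?_ ρ χ ω halt hnd hωρ hss' γ hχ hγ φ hφ
  intro L _ _ j h jp
  choose κ u' hκ hodd hu' using fun i =>
    exists_slopes_odd (p := p) (m := fun _ : ι => a) (π := π) hweil i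
  refine free_scale (a := fun i => ((κ i).den : ℤ)) (b := fun i => (D i : ℤ) * (κ i).num)
    (u' := fun i φ => u' i (jp.comp φ)) ?_ ?_ ?_
    (free_of_local (m := fun _ => a) hloc hint hweil hκ hodd hu' j h jp)
  · intro i
    exact_mod_cast (κ i).den_pos.ne'
  · intro i
    have e1 := hD i
    have e2 := Rat.num_pos.2 (hκ i)
    positivity
  · intro i φ
    have e1 := hu i (jp.comp φ)
    have e2 := hu' i (jp.comp φ)
    rw [e1] at e2
    have e3 : (κ i : ℝ) = (κ i).num / (κ i).den := by rw [Rat.cast_def]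
    have e4 : ((κ i).den : ℝ) ≠ 0 := by exact_mod_cast (κ i).den_pos.ne'
    have e5 : ((D i : ℕ) : ℝ) ≠ 0 := by exact_mod_cast (hD i).ne'
    rw [e3] at e2
    push_cast at e2
    have e6 : ((κ i).den : ℝ) * (u i (jp.comp φ) : ℝ) =
        ((D i : ℝ) * (κ i).num) * (u' i (jp.comp φ) : ℝ) := by
      field_simp at e2
      linarith
    exact_mod_cast e6

include ha hint hw hloc in
theorem tateGenerated_of_local {Γ : Type} [Group Γ] (ρ : Representation k Γ V) (χ : Γ →* k)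
    (ω : V →ₗ[k] V →ₗ[k] k) (halt : ∀ v, ω v v = 0) (hnd : ∀ u, (∀ v, ω v u = 0) → u = 0)
    (hωρ : ∀ s u v, ω (ρ s u) (ρ s v) = χ s * ω u v)
    (hss : FiniteIndexSemisimple ρ)
    (γ : Γ) (hχ : χ γ = (p : k) ^ a)
    (hγ : (ρ γ).charpoly = ∏ i, (minpoly ℚ (π i)).map (algebraMap ℚ k)) :
    TateGeneratedInDegreeTwo ρ χ := by
  intro n m f hf
  obtain ⟨Δ, hΔ, hf⟩ := hf
  have h1 := altG_of_tate_mem ρ χ (n := n) (m := m) (fun φ hφ => tate_of_local ha hint hw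
    hloc ρ χ ω halt hnd hωρ hss γ hχ hγ φ hφ) f Δ hΔ hf
  refine Submodule.span_mono ?_ h1
  rintro g ⟨B, hB, hg⟩
  refine ⟨B, fun l => ?_, hg⟩
  obtain ⟨Δ', hΔ', h2⟩ := hB l
  refine ⟨Δ', hΔ', fun s hs v => ?_⟩
  rw [pow_one]
  exact h2 s hs v

include ha hint hw hloc in
theorem homs_of_local {Γ : Type} [Group Γ] (ρ : Representation k Γ V) (χ : Γ →* k)
    (ω : V →ₗ[k] V →ₗ[k] k) (halt : ∀ v, ω v v = 0) (hnd : ∀ u, (∀ v, ω v u = 0) → u = 0)
    (hωρ : ∀ s u v, ω (ρ s u) (ρ s v) = χ s * ω u v)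
    (hss : FiniteIndexSemisimple ρ)
    (γ : Γ) (hχ : χ γ = (p : k) ^ a)
    (hγ : (ρ γ).charpoly = ∏ i, (minpoly ℚ (π i)).map (algebraMap ℚ k)) :
    HomsGeneratedInDegreeTwo ρ χ ω :=
  homs_generated ρ χ ω halt hnd hωρ fun m φ hφ => tate_of_local ha hint hw
    hloc ρ χ ω halt hnd hωρ hss γ hχ hγ φ hφ

include ha hint hw hloc in
theorem mumfordTate_of_local {W T : Type} [AddCommGroup W] [Module ℚ W] [AddCommGroup T]
    [Module ℂ T] (per : W →+ T) (ω₀ : W →ₗ[ℚ] W →ₗ[ℚ] ℚ) (hω₀ : IsHodgeBilinear per ω₀)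
    (comp : W →+ V) {Γ : Type} [Group Γ] (ρ : Representation k Γ V) (χ : Γ →* k)
    (ω : V →ₗ[k] V →ₗ[k] k) (halt : ∀ v, ω v v = 0) (hnd : ∀ u, (∀ v, ω v u = 0) → u = 0)
    (hωρ : ∀ s u v, ω (ρ s u) (ρ s v) = χ s * ω u v)
    (hωω : ∀ x y, ω (comp x) (comp y) = ((ω₀ x y : ℚ) : k))
    (hss : FiniteIndexSemisimple ρ) (hF : FaltingsEnd per comp ρ)
    (γ : Γ) (hχ : χ γ = (p : k) ^ a)
    (hγ : (ρ γ).charpoly = ∏ i, (minpoly ℚ (π i)).map (algebraMap ℚ k)) :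
    MumfordTateStrong per comp ρ χ := by
  have hnd' : ∀ u, (∀ v, ω u v = 0) → u = 0 := by
    intro u hu
    apply hnd
    intro v
    have h1 := halt (u + v)
    simp only [map_add, LinearMap.add_apply, halt, hu, zero_add, add_zero] at h1
    exact h1
  exact mumfordTate_of per comp ρ χ ω hnd' hωρ ω₀ hω₀ hωω hF fun m φ hφ => tate_of_local ha hint
    hw hloc ρ χ ω halt hnd hωρ hss γ hχ hγ φ hφ

end tate

end

end Pool.Agent.H395
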