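import Mathlib
import Pool.Agent.H395.Angle
import Pool.Graph.R_seed8.Y1.CT.UnrelRel

/-!
# There are no relations between Weil numbers whose classes are of local type
-/

set_option autoImplicit false
set_option linter.unusedSectionVars false
set_option linter.unusedVariables false

namespace Pool.Agent.H395

open NumberField Module Polynomial Pool.Agent.TH170.MF Pool.Agent.H204R3.CM Pool.Agent.H977R3.CM
  Pool.Agent.TH170 Pool.Agent.TH170.CM Pool.Agent.TH170.FW Pool.Agent.Y1.KN
  Pool.Agent.Y1.CT Pool.Agent.Y137.MV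

variable {p : ℕ} [hp : Fact p.Prime] {a : ℕ} {I : Type} [Fintype I] {K : I → Type}
  [∀ i, Field (K i)] [∀ i, NumberField (K i)] [∀ i, IsCMField (K i)]

theorem noRel_unrelated {π : ∀ i, K i}
    (hw : ∀ i, π i * IsCMField.complexConj (K i) (π i) = (p : K i) ^ a)
    (hang : MaximalAngleRank (p ^ a) π) {f : I → ℤ[X]} (hf : ∀ i, IsPolyOf (π i) (f i)) :
    Pool.Agent.Y1.CT.NoRel f (p ^ a) (Unrelated K) :=
  ⟨fun i => (hf i).1, unrelated_one K, fun s hs ρ hρ =>
    exactPair_of_angle hang (fun i => by rw [hw i]) f hf s hs ρ hρ⟩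

theorem noRel_independent {π : ∀ i, K i}
    (hw : ∀ i, π i * IsCMField.complexConj (K i) (π i) = (p : K i) ^ a)
    (hang : MaximalAngleRank (p ^ a) π) {f : I → ℤ[X]} (hf : ∀ i, IsPolyOf (π i) (f i)) :
    Pool.Agent.Y1.CT.NoRel f (p ^ a) (Pool.Agent.Y1.CT.Independent K) :=
  ⟨fun i => (hf i).1, Pool.Agent.Y1.CT.independent_one K, fun s hs ρ hρ =>
    (noRel_unrelated hw hang hf).3 s hs ρ (unrelated_of_independent hρ)⟩

end Pool.Agent.H395
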